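import Pool.Agent.Helper71.EKC.W1
import Pool.Agent.Helper71.EKC.W2
import Pool.Agent.Helper71.EKC.W3
import Pool.Agent.Helper71.EKC.W4
import Pool.Agent.Helper96.EKC.Asm

/-!
The octagon with the vertices `1 ± i/5`, `5/7 ± i/2`, `2/7 ± i/2`, `± i/5` contains the circle of
the directions; `κ₂ = (9/2)(1 + Re α) - 1/20`.
-/

set_option autoImplicit false

open Complex MeasureTheory Metric Set
open scoped Real ComplexConjugate

namespace Pool.Agent.Helper71.EKC

open Pool.EK71 Pool.Agent.Helper52.EK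
open Pool.Agent.Helper68.EKC (Gu)
open Pool.Agent.Helper71.EK (e0_norm)

/-- the common weight -/
noncomputable def sgo (X : ℂ) : ℝ :=
  ((X.re - 1) ^ 2 + X.im ^ 2) * (19 / 10 * (1 + 5 * (X.re ^ 2 + X.im ^ 2))) /
    Da 5 X.re X.im ^ 2

lemma sgo_conj (X : ℂ) : sgo (conj X) = sgo X := by
  unfold sgo Da
  simp

lemma sgo_1 : sgf W1.C.a W1.C.k W1.C.K W1.C.S = sgo := by
  funext X
  unfold sgf sgo W1.C
  congr 2
  simp [ev2, ev1]
  ring

lemma sgo_2 : sgf W2.C.a W2.C.k W2.C.K W2.C.S = sgo := by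
  funext X
  unfold sgf sgo W2.C
  congr 2
  simp [ev2, ev1]
  ring

lemma sgo_3 : sgf W3.C.a W3.C.k W3.C.K W3.C.S = sgo := by
  funext X
  unfold sgf sgo W3.C
  congr 2
  simp [ev2, ev1]
  ring

lemma sgo_4 : sgf W4.C.a W4.C.k W4.C.K W4.C.S = sgo := by
  funext X
  unfold sgf sgo W4.C
  congr 2
  simp [ev2, ev1]
  ring

theorem vso_1 : VS sgo 1 (1 / 5) (179 / 20) := by
  have h := W1.vs0
  rw [sgo_1] at h
  norm_num [W1.C] at h
  exact h

theorem vso_2 : VS sgo (5 / 7) (1 / 2) (1073 / 140) := by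
  have h := W2.vs0
  rw [sgo_2] at h
  norm_num [W2.C] at h
  exact h

theorem vso_3 : VS sgo (2 / 7) (1 / 2) (803 / 140) := by
  have h := W3.vs0
  rw [sgo_3] at h
  norm_num [W3.C] at h
  exact h

theorem vso_4 : VS sgo 0 (1 / 5) (89 / 20) := by
  have h := W4.vs0
  rw [sgo_4] at h
  norm_num [W4.C] at h
  exact h

/-- upper half of the circle -/
theorem covo_up {x y : ℝ} (h : (2 * x - 1) ^ 2 + (2 * y) ^ 2 = 1) (hy : 0 ≤ y) :
    VS sgo x y (9 / 2 * (1 + x) - 1 / 20) := by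
  have hx0 : 0 ≤ x := by nlinarith
  have hx1 : x ≤ 1 := by nlinarith
  have hy1 : y ≤ 1 / 2 := by nlinarith
  have ht : 21 * x + 20 * y ≤ 25 := by nlinarith [sq_nonneg (20 * (2 * x - 1) - 21 * (2 * y))]
  have hs : 20 * y ≤ 4 + 21 * x := by nlinarith [sq_nonneg (20 * (2 * x - 1) + 21 * (2 * y))]
  have v1 := vso_1
  have v1' := vso_1.refl sgo_conj
  have v2 := vso_2
  have v3 := vso_3
  have v4 := vso_4
  have v4' := vso_4.refl sgo_conj
  obtain ⟨w, hw⟩ : ∃ w : ℝ, w = y + 1 / 5 := ⟨_, rfl⟩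
  have hyw : y = w - 1 / 5 := by linarith
  subst hyw
  rcases le_total (5 * w) (2 * x) with h1 | h1
  · have := v4'.tri v1' v1 (l₁ := 1 - x) (l₂ := x - 5 / 2 * w) (l₃ := 5 / 2 * w)
      (by linarith) (by linarith) (by linarith) (by ring)
    convert this using 1 <;> ring
  · rcases le_total (50 * w) (49 * x) with h2 | h2
    · have := v4'.tri v1 v2 (l₁ := (29 - 21 * x - 20 * w) / 29) (l₂ := (49 * x - 50 * w) / 29)
        (l₃ := (70 * w - 28 * x) / 29) (by linarith) (by linarith) (by linarith) (by ring)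
      convert this using 1 <;> ring
    · rcases le_total (20 * w) (49 * x) with h3 | h3
      · have := v4'.tri v2 v3 (l₁ := (7 - 10 * w) / 7) (l₂ := (49 * x - 20 * w) / 21)
          (l₃ := (50 * w - 49 * x) / 21) (by linarith) (by linarith) (by linarith) (by ring)
        convert this using 1 <;> ring
      · have := v4'.tri v3 v4 (l₁ := (8 + 21 * x - 20 * w) / 8) (l₂ := 7 / 2 * x)
          (l₃ := 5 / 2 * w - 49 / 8 * x) (by linarith) (by linarith) (by linarith) (by ring)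
        convert this using 1 <;> ring

/-- the whole circle -/
theorem covo {x y : ℝ} (h : (2 * x - 1) ^ 2 + (2 * y) ^ 2 = 1) :
    VS sgo x y (9 / 2 * (1 + x) - 1 / 20) := by
  rcases le_total 0 y with hy | hy
  · exact covo_up h hy
  · have e : (2 * -y) ^ 2 = (2 * y) ^ 2 := by ring
    have := (covo_up (x := x) (y := -y) (by rw [e]; exact h) (by linarith)).refl sgo_conj
    rwa [neg_neg] at this

lemma T_zero (X Y : ℂ) (s c : ℝ) (h : s ^ 2 + c ^ 2 = 1) :
    TG (Gu (-1)) ((1 + -1) / 2 * X) ((1 + -1) / 2 * Y) s c = 0 := by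
  have he := e0_norm h
  have e1 : conj (-1 : ℂ) * (mX ((1 + -1) / 2 * X) ((1 + -1) / 2 * Y) s c + 1) - 1 = e0 s c := by
    rw [mX]
    simp
  rw [TG, Gu, e1, Gc, he]
  simp

/-- the strip inequality in every direction -/
theorem cover : Pool.Agent.Helper96.EKC.Cover := by
  intro u hu
  have hre : ((1 + u) / 2).re = (1 + u.re) / 2 := by simp
  have him : ((1 + u) / 2).im = u.im / 2 := by simp
  have hn : u.re ^ 2 + u.im ^ 2 = 1 := by
    have : ‖u‖ ^ 2 = u.re ^ 2 + u.im ^ 2 := by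
      rw [← Complex.normSq_eq_norm_sq, Complex.normSq_apply]; ring
    rw [← this, hu]; norm_num
  have hge : -1 ≤ u.re := by nlinarith [sq_nonneg u.im]
  by_cases h1 : 1 + u = 0
  · have hu1 : u = -1 := by linear_combination h1
    subst hu1
    refine ⟨0, fun X x₁ x₂ l hl hx hX => ?_⟩
    have e : II (x₁ + l) (x₂ - l) (fun ξ η => TG (Gu (-1)) ((1 + -1) / 2 * X (pt ξ η))
        ((1 + -1) / 2 * deriv X (pt ξ η)) (Real.sin η) (Real.cos η)) = 0 := by
      simp only [T_zero _ _ _ _ (Real.sin_sq_add_cos_sq _)]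
      simp [II]
    rw [e]
    have h2 : 0 ≤ II x₁ x₂ (fun ξ η => ‖X (pt ξ η) - 1‖ ^ 2) :=
      Pool.Agent.Helper83.EK.II_nonneg (by linarith) (fun ξ η => by positivity)
    refine mul_nonneg ?_ h2
    rw [hre]
    norm_num
  · refine (covo ?_).strip hu h1 ?_
    · rw [hre, him]
      linear_combination hn
    · rw [hre]; linarith

end Pool.Agent.Helper71.EKC
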