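import Pool.Agent.Helper71.EKC.Pw
import Pool.Agent.Helper68.EKC.Gu
import Pool.Agent.Helper44.EK.StripGen

/-!
Certificates at the vertices of a polygon: the potentials and `κ₂` are affine functions of the
direction `α = (1+u)/2`, the weight `σ` is fixed.
-/

set_option autoImplicit false

open Complex
open scoped ComplexConjugate

namespace Pool.Agent.Helper71.EKC

open Pool.EK71 Pool.Agent.Helper52.EK Pool.Agent.Helper2.EK Pool.Agent.Helper71.EK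
open Pool.Agent.Helper68.EKC (Gu Gu_lip)

/-- the potentials of a certificate -/
structure Fns where
  k2 : ℝ
  U : ℂ → ℝ
  Ux : ℂ → ℝ
  Uy : ℂ → ℝ
  L : ℂ → ℝ
  V : ℂ → ℝ
  Vx : ℂ → ℝ
  Vy : ℂ → ℝ
  Z : ℂ → ℝ
  Zx : ℂ → ℝ
  Zy : ℂ → ℝ
  W : ℂ → ℝ
  Wx : ℂ → ℝ
  Wy : ℂ → ℝ
  T : ℂ → ℝ
  Tx : ℂ → ℝ
  Ty : ℂ → ℝ

structure Fns.Good (F : Fns) : Prop where
  hU : C2f F.U F.Ux F.Uy F.L
  hV : C1f F.V F.Vx F.Vy
  hZ : C1f F.Z F.Zx F.Zy
  hW : C1f F.W F.Wx F.Wy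
  hT : C1f F.T F.Tx F.Ty
  bd : ∃ C : ℝ, ∀ X, |F.U X| ≤ C * ‖X - 1‖ ^ 2 ∧ |F.W X| ≤ C * ‖X - 1‖ ^ 2 ∧
    |F.T X| ≤ C * ‖X - 1‖ ^ 2

/-- the right side of the certificate -/
noncomputable def Fns.R (F : Fns) (X Y : ℂ) (s c : ℝ) : ℝ :=
  F.k2 * ‖X - 1‖ ^ 2 + (s ^ 2 * F.L X * ‖Y‖ ^ 2 - 2 * (c ^ 2 - s ^ 2) * F.U X)
    + (s ^ 2 * (F.Wx X * Y.re + F.Wy X * Y.im) + 2 * s * c * (F.Tx X * Y.re + F.Ty X * Y.im))
    + (s ^ 2 * (-F.Vx X * Y.im + F.Vy X * Y.re) + 2 * s * c * F.V X)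
    + (2 * s * c * (-F.Zx X * Y.im + F.Zy X * Y.re) + 2 * (c ^ 2 - s ^ 2) * F.Z X)

/-- `|v|²`, with `|α|²` replaced by `Re α` -/
noncomputable def wv (a b : ℝ) (X q : ℂ) : ℝ :=
  4 * a * ((X.re - 1) ^ 2 + X.im ^ 2) + 4 * ((a * (X.re - 1) - b * X.im) * q.re
    + (a * X.im + b * (X.re - 1)) * q.im) + (q.re ^ 2 + q.im ^ 2)
noncomputable def w1 (a b : ℝ) (X q : ℂ) : ℝ :=
  2 * (a * (X.re - 1) + b * X.im) + (2 * a - 1) * q.re + 2 * b * q.im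
noncomputable def w2 (a b : ℝ) (X q : ℂ) : ℝ :=
  2 * (a * X.im - b * (X.re - 1)) + (2 * a - 1) * q.im - 2 * b * q.re

noncomputable def QQ (σ a b : ℝ) (X q : ℂ) (s c : ℝ) : ℝ :=
  σ * (4 * s ^ 2 * (wv a b X q + w1 a b X q) + 4 * s * c * w2 a b X q) - 4 * s ^ 2 * wv a b X q

/-- a certificate at the vertex `a + b i` with the weight `σ` -/
structure Vert (σ : ℂ → ℝ) (a b : ℝ) (F : Fns) : Prop where
  good : F.Good
  nn : ∀ X, 0 ≤ σ X
  c1 : ∀ (X Y : ℂ) (s c : ℝ), s ^ 2 + c ^ 2 = 1 → σ X ≤ F.R X Y s c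
  c2 : ∀ (X q : ℂ) (s c : ℝ), s ^ 2 + c ^ 2 = 1 →
    0 ≤ F.R X (X * q) s c + QQ (σ X) a b X q s c

theorem Vert.le {σ : ℂ → ℝ} {α : ℂ} {F : Fns} (h : Vert σ α.re α.im F) (hc : ‖2 * α - 1‖ = 1)
    {X : ℂ} (hX : X ≠ 0) (Y : ℂ) {s c : ℝ} (hs : s ^ 2 + c ^ 2 = 1) :
    Tal α X Y s c ≤ F.R X Y s c := by
  refine Gc_le _ hs (h.nn X) (h.c1 X Y s c hs) ?_
  rw [mal_sub α X Y hs]
  obtain ⟨q, hq⟩ : ∃ q : ℂ, q = Y / X := ⟨_, rfl⟩
  obtain ⟨v, hv⟩ : ∃ v : ℂ, v = 2 * conj α * (X - 1) + (2 * conj α - 1) * q := ⟨_, rfl⟩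
  have hm : ‖mal α X Y s c‖ ^ 2 - 1 = 4 * s ^ 2 * (‖v‖ ^ 2 + v.re) + 4 * s * c * v.im := by
    rw [mal, ← hq, ← hv, m_sq v hs]
  rw [hm, ← hq, ← hv]
  have hcirc : α.re ^ 2 + α.im ^ 2 = α.re := by
    have h1 : ‖2 * α - 1‖ ^ 2 = 1 := by rw [hc]; norm_num
    rw [← Complex.normSq_eq_norm_sq, Complex.normSq_apply] at h1
    simp at h1
    nlinarith
  have e1 : v.re = w1 α.re α.im X q := by
    rw [hv, w1]
    simp
    ring
  have e2 : v.im = w2 α.re α.im X q := by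
    rw [hv, w2]
    simp
    ring
  have e3 : ‖v‖ ^ 2 = wv α.re α.im X q := by
    have : ‖v‖ ^ 2 = w1 α.re α.im X q ^ 2 + w2 α.re α.im X q ^ 2 := by
      rw [← Complex.normSq_eq_norm_sq, Complex.normSq_apply, e1, e2]; ring
    rw [this, w1, w2, wv]
    linear_combination (4 * ((X.re - 1) ^ 2 + X.im ^ 2)
      + 8 * ((X.re - 1) * q.re + X.im * q.im) + 4 * (q.re ^ 2 + q.im ^ 2)) * hcirc
  have eY : Y = X * q := by rw [hq]; field_simp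
  have h2 := h.c2 X q s c hs
  rw [← eY, QQ] at h2
  rw [e3, e1, e2]
  linarith

/-! ### sums and multiples -/

lemma c1_comb {A Ax Ay B Bx By : ℂ → ℝ} (hA : C1f A Ax Ay) (hB : C1f B Bx By) (l m : ℝ) :
    C1f (fun X => l * A X + m * B X) (fun X => l * Ax X + m * Bx X)
      (fun X => l * Ay X + m * By X) := by
  refine c1_congr (c1_add (c1_mul (c1_const l) hA) (c1_mul (c1_const m) hB)) ?_ ?_ ?_ <;>
    intro X <;> ring

lemma c2_comb {A Ax Ay LA B Bx By LB : ℂ → ℝ} (hA : C2f A Ax Ay LA) (hB : C2f B Bx By LB)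
    (l m : ℝ) : C2f (fun X => l * A X + m * B X) (fun X => l * Ax X + m * Bx X)
      (fun X => l * Ay X + m * By X) (fun X => l * LA X + m * LB X) := by
  obtain ⟨h1, a1, a2, a3, a4, a5, a6⟩ := hA
  obtain ⟨g1, b1, b2, b3, b4, b5, b6⟩ := hB
  refine ⟨c1_comb h1 g1 l m, _, _, _, c1_comb a4 b4 l m, c1_comb a5 b5 l m, fun X => ?_⟩
  rw [a6, b6]; ring

/-- linear combination of potentials -/
noncomputable def Fns.comb (F G : Fns) (l m : ℝ) : Fns where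
  k2 := l * F.k2 + m * G.k2
  U := fun X => l * F.U X + m * G.U X
  Ux := fun X => l * F.Ux X + m * G.Ux X
  Uy := fun X => l * F.Uy X + m * G.Uy X
  L := fun X => l * F.L X + m * G.L X
  V := fun X => l * F.V X + m * G.V X
  Vx := fun X => l * F.Vx X + m * G.Vx X
  Vy := fun X => l * F.Vy X + m * G.Vy X
  Z := fun X => l * F.Z X + m * G.Z X
  Zx := fun X => l * F.Zx X + m * G.Zx X
  Zy := fun X => l * F.Zy X + m * G.Zy X
  W := fun X => l * F.W X + m * G.W X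
  Wx := fun X => l * F.Wx X + m * G.Wx X
  Wy := fun X => l * F.Wy X + m * G.Wy X
  T := fun X => l * F.T X + m * G.T X
  Tx := fun X => l * F.Tx X + m * G.Tx X
  Ty := fun X => l * F.Ty X + m * G.Ty X

lemma Fns.R_comb (F G : Fns) (l m : ℝ) (X Y : ℂ) (s c : ℝ) :
    (F.comb G l m).R X Y s c = l * F.R X Y s c + m * G.R X Y s c := by
  unfold Fns.R Fns.comb
  ring

lemma bd_comb {a b C D n l m : ℝ} (hl : 0 ≤ l) (hm : 0 ≤ m) (ha : |a| ≤ C * n)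
    (hb : |b| ≤ D * n) : |l * a + m * b| ≤ (l * C + m * D) * n := by
  calc |l * a + m * b| ≤ |l * a| + |m * b| := abs_add_le _ _
    _ = l * |a| + m * |b| := by rw [abs_mul, abs_mul, abs_of_nonneg hl, abs_of_nonneg hm]
    _ ≤ l * (C * n) + m * (D * n) :=
      add_le_add (mul_le_mul_of_nonneg_left ha hl) (mul_le_mul_of_nonneg_left hb hm)
    _ = _ := by ring

lemma Fns.Good.comb {F G : Fns} (hF : F.Good) (hG : G.Good) {l m : ℝ} (hl : 0 ≤ l)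
    (hm : 0 ≤ m) : (F.comb G l m).Good := by
  refine ⟨c2_comb hF.hU hG.hU l m, c1_comb hF.hV hG.hV l m, c1_comb hF.hZ hG.hZ l m,
    c1_comb hF.hW hG.hW l m, c1_comb hF.hT hG.hT l m, ?_⟩
  obtain ⟨C, hC⟩ := hF.bd
  obtain ⟨D, hD⟩ := hG.bd
  refine ⟨l * C + m * D, fun X => ⟨?_, ?_, ?_⟩⟩
  · exact bd_comb hl hm (hC X).1 (hD X).1
  · exact bd_comb hl hm (hC X).2.1 (hD X).2.1
  · exact bd_comb hl hm (hC X).2.2 (hD X).2.2

lemma QQ_comb (σ a b a' b' : ℝ) (X q : ℂ) (s c : ℝ) {l m : ℝ} (hlm : l + m = 1) :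
    QQ σ (l * a + m * a') (l * b + m * b') X q s c =
      l * QQ σ a b X q s c + m * QQ σ a' b' X q s c := by
  have e : m = 1 - l := by linarith
  subst e
  unfold QQ wv w1 w2
  ring

theorem Vert.comb {σ : ℂ → ℝ} {a b a' b' : ℝ} {F G : Fns} (hF : Vert σ a b F)
    (hG : Vert σ a' b' G) {l m : ℝ} (hl : 0 ≤ l) (hm : 0 ≤ m) (hlm : l + m = 1) :
    Vert σ (l * a + m * a') (l * b + m * b') (F.comb G l m) := by
  refine ⟨hF.good.comb hG.good hl hm, hF.nn, fun X Y s c h => ?_, fun X q s c h => ?_⟩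
  · rw [Fns.R_comb]
    have h1 := mul_le_mul_of_nonneg_left (hF.c1 X Y s c h) hl
    have h2 := mul_le_mul_of_nonneg_left (hG.c1 X Y s c h) hm
    have e : σ X = l * σ X + m * σ X := by rw [← add_mul, hlm, one_mul]
    linarith
  · rw [Fns.R_comb, QQ_comb _ _ _ _ _ _ _ _ _ hlm]
    have h1 := mul_nonneg hl (hF.c2 X q s c h)
    have h2 := mul_nonneg hm (hG.c2 X q s c h)
    linarith

/-! ### reflection -/

lemma c1_conj {A Ax Ay : ℂ → ℝ} (hA : C1f A Ax Ay) :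
    C1f (fun X => A (conj X)) (fun X => Ax (conj X)) (fun X => -Ay (conj X)) := by
  refine ⟨fun X => ?_, hA.cx.comp continuous_conj, (hA.cy.comp continuous_conj).neg⟩
  have h1 := hA.hd (conj X)
  have h2 : HasFDerivAt (fun X : ℂ => conj X) (Complex.conjCLE : ℂ →L[ℝ] ℂ) X :=
    Complex.conjCLE.hasFDerivAt
  have h3 := h1.comp X h2
  refine h3.congr_fderiv ?_
  ext z
  simp

lemma c2_conj {A Ax Ay LA : ℂ → ℝ} (hA : C2f A Ax Ay LA) :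
    C2f (fun X => A (conj X)) (fun X => Ax (conj X)) (fun X => -Ay (conj X))
      (fun X => LA (conj X)) := by
  obtain ⟨h1, Axx, Axy, Ayy, h2, h3, h4⟩ := hA
  refine ⟨c1_conj h1, fun X => Axx (conj X), fun X => -Axy (conj X), fun X => Ayy (conj X),
    c1_conj h2, ?_, fun X => h4 _⟩
  refine c1_congr (c1_mul (c1_const (-1)) (c1_conj h3)) ?_ ?_ ?_ <;> intro X <;> ring

/-- reflection of the potentials -/
noncomputable def Fns.refl (F : Fns) : Fns where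
  k2 := F.k2
  U := fun X => F.U (conj X)
  Ux := fun X => F.Ux (conj X)
  Uy := fun X => -F.Uy (conj X)
  L := fun X => F.L (conj X)
  V := fun X => -F.V (conj X)
  Vx := fun X => -F.Vx (conj X)
  Vy := fun X => F.Vy (conj X)
  Z := fun X => F.Z (conj X)
  Zx := fun X => F.Zx (conj X)
  Zy := fun X => -F.Zy (conj X)
  W := fun X => F.W (conj X)
  Wx := fun X => F.Wx (conj X)
  Wy := fun X => -F.Wy (conj X)
  T := fun X => -F.T (conj X)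
  Tx := fun X => -F.Tx (conj X)
  Ty := fun X => F.Ty (conj X)

lemma norm_conj_sub (X : ℂ) : ‖conj X - 1‖ = ‖X - 1‖ := by
  have : conj X - 1 = conj (X - 1) := by simp
  rw [this, RCLike.norm_conj]

lemma Fns.R_refl (F : Fns) (X Y : ℂ) (s c : ℝ) :
    F.refl.R X Y s c = F.R (conj X) (conj Y) (-s) c := by
  unfold Fns.R Fns.refl
  rw [norm_conj_sub, RCLike.norm_conj]
  simp only [Complex.conj_re, Complex.conj_im]
  ring

lemma Fns.Good.refl {F : Fns} (hF : F.Good) : F.refl.Good := by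
  refine ⟨c2_conj hF.hU, ?_, c1_conj hF.hZ, c1_conj hF.hW, ?_, ?_⟩
  · refine c1_congr (c1_mul (c1_const (-1)) (c1_conj hF.hV)) ?_ ?_ ?_ <;> intro X
    · show -F.V (conj X) = _; ring
    · show -F.Vx (conj X) = _; ring
    · show F.Vy (conj X) = _; ring
  · refine c1_congr (c1_mul (c1_const (-1)) (c1_conj hF.hT)) ?_ ?_ ?_ <;> intro X
    · show -F.T (conj X) = _; ring
    · show -F.Tx (conj X) = _; ring
    · show F.Ty (conj X) = _; ring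
  · obtain ⟨C, hC⟩ := hF.bd
    refine ⟨C, fun X => ?_⟩
    have := hC (conj X)
    rw [norm_conj_sub] at this
    refine ⟨this.1, this.2.1, ?_⟩
    show |-F.T (conj X)| ≤ _
    rw [abs_neg]
    exact this.2.2

lemma QQ_refl (σ a b : ℝ) (X q : ℂ) (s c : ℝ) :
    QQ σ a (-b) X q s c = QQ σ a b (conj X) (conj q) (-s) c := by
  unfold QQ wv w1 w2
  simp only [Complex.conj_re, Complex.conj_im]
  ring

theorem Vert.refl {σ : ℂ → ℝ} (hσ : ∀ X, σ (conj X) = σ X) {a b : ℝ} {F : Fns}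
    (hF : Vert σ a b F) : Vert σ a (-b) F.refl := by
  refine ⟨hF.good.refl, hF.nn, fun X Y s c h => ?_, fun X q s c h => ?_⟩
  · rw [Fns.R_refl, ← hσ]
    exact hF.c1 _ _ _ _ (by rw [neg_sq]; exact h)
  · rw [Fns.R_refl, QQ_refl, ← hσ, map_mul]
    exact hF.c2 _ _ _ _ (by rw [neg_sq]; exact h)

/-! ### the convex set of directions and constants -/

/-- there is a certificate for `(a, b, k)` -/
def VS (σ : ℂ → ℝ) (a b k : ℝ) : Prop := ∃ F : Fns, F.k2 = k ∧ Vert σ a b F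

theorem VS.mono {σ : ℂ → ℝ} {a b k k' : ℝ} (h : VS σ a b k) (hk : k ≤ k') : VS σ a b k' := by
  obtain ⟨F, rfl, hF⟩ := h
  refine ⟨{F with k2 := k'}, rfl, ?_⟩
  have hR : ∀ (X Y : ℂ) (s c : ℝ), F.R X Y s c ≤ ({F with k2 := k'} : Fns).R X Y s c := by
    intro X Y s c
    unfold Fns.R
    have : F.k2 * ‖X - 1‖ ^ 2 ≤ k' * ‖X - 1‖ ^ 2 := mul_le_mul_of_nonneg_right hk (sq_nonneg _)
    simp only
    linarith
  exact ⟨⟨hF.good.hU, hF.good.hV, hF.good.hZ, hF.good.hW, hF.good.hT, hF.good.bd⟩, hF.nn,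
    fun X Y s c h => (hF.c1 X Y s c h).trans (hR _ _ _ _),
    fun X q s c h => (hF.c2 X q s c h).trans (add_le_add (hR _ _ _ _) le_rfl)⟩

theorem VS.refl {σ : ℂ → ℝ} (hσ : ∀ X, σ (conj X) = σ X) {a b k : ℝ} (h : VS σ a b k) :
    VS σ a (-b) k := by
  obtain ⟨F, h1, h2⟩ := h
  exact ⟨F.refl, h1, h2.refl hσ⟩

theorem VS.comb {σ : ℂ → ℝ} {a b k a' b' k' : ℝ} (h : VS σ a b k) (h' : VS σ a' b' k')
    {l m : ℝ} (hl : 0 ≤ l) (hm : 0 ≤ m) (hlm : l + m = 1) :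
    VS σ (l * a + m * a') (l * b + m * b') (l * k + m * k') := by
  obtain ⟨F, rfl, hF⟩ := h
  obtain ⟨G, rfl, hG⟩ := h'
  exact ⟨_, rfl, hF.comb hG hl hm hlm⟩

theorem VS.tri {σ : ℂ → ℝ} {a₁ b₁ k₁ a₂ b₂ k₂ a₃ b₃ k₃ : ℝ} (h₁ : VS σ a₁ b₁ k₁)
    (h₂ : VS σ a₂ b₂ k₂) (h₃ : VS σ a₃ b₃ k₃) {l₁ l₂ l₃ : ℝ} (p₁ : 0 ≤ l₁) (p₂ : 0 ≤ l₂)
    (p₃ : 0 ≤ l₃) (hs : l₁ + l₂ + l₃ = 1) :
    VS σ (l₁ * a₁ + l₂ * a₂ + l₃ * a₃) (l₁ * b₁ + l₂ * b₂ + l₃ * b₃)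
      (l₁ * k₁ + l₂ * k₂ + l₃ * k₃) := by
  rcases eq_or_lt_of_le (add_nonneg p₁ p₂) with h | h
  · have e1 : l₁ = 0 := by linarith
    have e2 : l₂ = 0 := by linarith
    have e3 : l₃ = 1 := by linarith
    rw [e1, e2, e3]
    simpa using h₃
  · have h4 := h₁.comb h₂ (l := l₁ / (l₁ + l₂)) (m := l₂ / (l₁ + l₂)) (by positivity)
      (by positivity) (by field_simp)
    have h5 := h4.comb h₃ h.le p₃ hs
    have e : ∀ x y z : ℝ, (l₁ + l₂) * (l₁ / (l₁ + l₂) * x + l₂ / (l₁ + l₂) * y) + l₃ * z =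
        l₁ * x + l₂ * y + l₃ * z := by
      intro x y z
      field_simp
    rw [e, e, e] at h5
    exact h5

/-! ### the strip inequality -/

theorem Tal_eq {u : ℂ} (hu : ‖u‖ = 1) (h1 : 1 + u ≠ 0) (X Y : ℂ) (s c : ℝ) :
    TG (Gu u) ((1 + u) / 2 * X) ((1 + u) / 2 * Y) s c = Tal ((1 + u) / 2) X Y s c := by
  have hal : (1 + u) / 2 ≠ 0 := div_ne_zero h1 two_ne_zero
  have hcu : conj u * u = 1 := by
    rw [mul_comm, Complex.mul_conj, Complex.normSq_eq_norm_sq, hu]; simp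
  have e1 : (1 + u) / 2 * Y / ((1 + u) / 2 * X) = Y / X := mul_div_mul_left _ _ hal
  have e2 : conj u * (mX ((1 + u) / 2 * X) ((1 + u) / 2 * Y) s c + 1) - 1 =
      mal ((1 + u) / 2) X Y s c := by
    rw [mX, mal, e1]
    simp only [map_div₀, map_add, map_one, Complex.conj_ofNat]
    linear_combination ((1 + e0 s c) * X) * hcu
  rw [TG, Tal, Gu, e2]

theorem cont_T {u : ℂ} (hu : ‖u‖ = 1) (h1 : 1 + u ≠ 0) :
    ContinuousOn (fun p : ℂ × ℂ × ℝ × ℝ => TG (Gu u) ((1 + u) / 2 * p.1) ((1 + u) / 2 * p.2.1)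
      p.2.2.1 p.2.2.2) {p | p.1 ≠ 0} := by
  have hal : (1 + u) / 2 ≠ 0 := div_ne_zero h1 two_ne_zero
  have hG : Continuous (Gu u) := Pool.Agent.Helper44.EK.GLip.continuous (Gu_lip hu)
  have c0 : ContinuousOn (fun p : ℂ × ℂ × ℝ × ℝ => (1 + u) / 2 * p.1) {p | p.1 ≠ 0} := by
    fun_prop
  have c1 : ContinuousOn (fun p : ℂ × ℂ × ℝ × ℝ => (1 + u) / 2 * p.2.1) {p | p.1 ≠ 0} := by
    fun_prop
  have c2 : ContinuousOn (fun p : ℂ × ℂ × ℝ × ℝ => e0 p.2.2.1 p.2.2.2) {p | p.1 ≠ 0} := by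
    unfold e0; fun_prop
  have c3 : ContinuousOn (fun p : ℂ × ℂ × ℝ × ℝ =>
      mX ((1 + u) / 2 * p.1) ((1 + u) / 2 * p.2.1) p.2.2.1 p.2.2.2) {p | p.1 ≠ 0} := by
    unfold mX
    refine ((continuousOn_const.add c2).mul ?_).sub continuousOn_const
    refine (((continuousOn_const.mul c0).sub continuousOn_const)).add (c1.div c0 ?_)
    intro p hp
    exact mul_ne_zero hal hp
  exact ((hG.comp_continuousOn c3).sub c2).norm.pow 2

/-- from a certificate to helper68's strip inequality -/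
theorem VS.strip {σ : ℂ → ℝ} {u : ℂ} (hu : ‖u‖ = 1) (h1 : 1 + u ≠ 0) {k : ℝ} (hk : 0 ≤ k)
    (h : VS σ ((1 + u) / 2).re ((1 + u) / 2).im k) :
    StripIneq k (fun X Y s c => TG (Gu u) ((1 + u) / 2 * X) ((1 + u) / 2 * Y) s c) := by
  obtain ⟨F, rfl, hF⟩ := h
  obtain ⟨C, hC⟩ := hF.good.bd
  refine Pool.Agent.Helper44.EK.strip_gen hk (fun X Y s c => sq_nonneg _) (cont_T hu h1)
    hF.good.hU hF.good.hV hF.good.hZ hF.good.hW hF.good.hT (fun X => (hC X).1)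
    (fun X => (hC X).2.1) (fun X => (hC X).2.2) ?_
  intro X Y hX s c hs
  show TG (Gu u) ((1 + u) / 2 * X) ((1 + u) / 2 * Y) s c ≤ _
  rw [Tal_eq hu h1]
  have hc : ‖2 * ((1 + u) / 2) - 1‖ = 1 := by
    have : 2 * ((1 + u) / 2) - 1 = u := by ring
    rw [this, hu]
  exact hF.le hc hX Y hs

end Pool.Agent.Helper71.EKC
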