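import Pool.Agent.Helper71.EKC.Cd

/-!
The polynomials of the two conditions as lists, and their values.
-/

set_option autoImplicit false

open Complex

namespace Pool.Agent.Helper71.EKC

open Pool.EK71 Pool.Agent.Helper52.EK Pool.Agent.Helper2.EK Pool.Agent.Helper71.EK

namespace CD

variable (C : CD)

def DDL : BP := DL C.a
def tX (N : BP) : BP := sb2 (mu2 (dX N) C.DDL) (sm2 C.kb (mu2 xL N))
def tY (N : BP) : BP := sb2 (sm2 C.kb (mu2 yL N)) (mu2 (dY N) C.DDL)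
def nrL (N : BP) : BP :=
  ad2 (sm2 2 (mu2 N C.DDL)) (sb2 (mu2 fL (C.tX N)) (mu2 yL (C.tY N)))
def niL (N : BP) : BP := ad2 (mu2 fL (C.tY N)) (mu2 yL (C.tX N))
def a1L : BP := sb2 (C.nrL C.W) (C.niL C.V)
def a2L : BP := ad2 (C.niL C.W) (C.nrL C.V)
def b1L : BP := sb2 (C.nrL C.T) (C.niL C.Z)
def b2L : BP := ad2 (C.niL C.T) (C.nrL C.Z)
def EL : BP := pw2 C.DDL C.k
def UZ : BP := sb2 C.U C.Z
def NaL : BP := ad2 (sb2 (sm2 C.kk C.EL) C.S) (sm2 2 C.UZ)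
def NgL : BP := sb2 (sb2 (sm2 C.kk C.EL) C.S) (sm2 2 C.UZ)
def m11L : BP := sb2 (sm2 4 (mu2 C.N4L C.NaL)) (ad2 (mu2 C.a1L C.a1L) (mu2 C.a2L C.a2L))
def m12L : BP := sb2 (sm2 4 (mu2 C.N4L C.V)) (sm2 2 (ad2 (mu2 C.a1L C.b1L) (mu2 C.a2L C.b2L)))
def m22L : BP := sb2 (sm2 4 (mu2 C.N4L C.NgL)) (sm2 4 (ad2 (mu2 C.b1L C.b1L) (mu2 C.b2L C.b2L)))
def q1L : BP := sb2 C.N4L (cL 1)

def KZ : ℤ := Int.ofNat C.K
def DEL : BP := mu2 C.DDL C.EL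
def SDL : BP := mu2 C.S C.DDL
def N2L : BP :=
  ad2 (sb2 (mu2 r2L C.N4L) (sm2 (Int.mul 4 C.KZ) (mu2 C.DDL C.DEL)))
    (sm2 4 (mu2 f2L (mu2 C.SDL C.DDL)))
def q2L : BP := sb2 C.N2L (cL 1)

section vert
variable (p r L : ℤ)
def Na2L : BP :=
  ad2 (ad2 (sm2 (Int.mul L C.kk) C.EL) (sm2 (Int.mul 2 L) C.UZ))
    (sb2 (sm2 4 (mu2 C.S (ad2 (sm2 (Int.mul 4 p) f2L) (sm2 2 (ad2 (sm2 p fL) (sm2 r yL))))))
      (sm2 (Int.mul 16 (Int.mul p C.KZ)) C.EL))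
def Ng2L : BP := sb2 (sm2 (Int.mul L C.kk) C.EL) (sm2 (Int.mul 2 L) C.UZ)
def Nb2L : BP := ad2 (sm2 L C.V) (sm2 4 (mu2 C.S (sb2 (sm2 p yL) (sm2 r fL))))
def c1L : BP := ad2 (sm2 (Int.sub (Int.mul 2 p) L) fL) (sm2 (Int.mul 2 r) yL)
def c2L : BP := sb2 (sm2 (Int.sub (Int.mul 2 p) L) yL) (sm2 (Int.mul 2 r) fL)
def A21L : BP :=
  ad2 (sm2 L (sb2 (mu2 xL C.a1L) (mu2 yL C.a2L)))
    (sb2 (mu2 C.SDL (ad2 (sm2 (Int.mul 16 p) f2L) (sm2 4 (c1L p r L))))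
      (sm2 (Int.mul 16 (Int.mul p C.KZ)) C.DEL))
def A22L : BP :=
  ad2 (sm2 L (ad2 (mu2 xL C.a2L) (mu2 yL C.a1L)))
    (ad2 (mu2 C.SDL (sb2 (sm2 4 (c2L p r L)) (sm2 (Int.mul 16 r) f2L)))
      (sm2 (Int.mul 16 (Int.mul r C.KZ)) C.DEL))
def B21L : BP := ad2 (sm2 L (sb2 (mu2 xL C.b1L) (mu2 yL C.b2L))) (sm2 2 (mu2 C.SDL (c2L p r L)))
def B22L : BP := sb2 (sm2 L (ad2 (mu2 xL C.b2L) (mu2 yL C.b1L))) (sm2 2 (mu2 C.SDL (c1L p r L)))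
def M11L : BP :=
  sb2 (sm2 (Int.mul 4 L) (mu2 C.N2L (C.Na2L p r L)))
    (ad2 (mu2 (C.A21L p r L) (C.A21L p r L)) (mu2 (C.A22L p r L) (C.A22L p r L)))
def M12L : BP :=
  sb2 (sm2 (Int.mul 4 L) (mu2 C.N2L (C.Nb2L p r L)))
    (sm2 2 (ad2 (mu2 (C.A21L p r L) (C.B21L p r L)) (mu2 (C.A22L p r L) (C.B22L p r L))))
def M22L : BP :=
  sb2 (sm2 (Int.mul 4 L) (mu2 C.N2L (C.Ng2L L)))
    (sm2 4 (ad2 (mu2 (C.B21L p r L) (C.B21L p r L)) (mu2 (C.B22L p r L) (C.B22L p r L))))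
end vert

/-! ### values -/

section val
variable (x y : ℝ)

lemma v_D : ev2 x y C.DDL = (C.pt x y).D := by rw [DDL, e_D]; rfl
lemma v_E : ev2 x y C.EL = (C.pt x y).E := by rw [EL, e_pw, v_D]; rfl
lemma v_kb : (C.kb : ℝ) = (C.pt x y).kb := by
  rw [kb, imul_cast, imul_cast]
  have h1 : ((Int.ofNat C.k : ℤ) : ℝ) = C.k := by simp
  have h2 : ((Int.ofNat C.a : ℤ) : ℝ) = C.a := by simp
  rw [h1, h2]
  show _ = 2 * (C.k : ℝ) * C.a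
  push_cast; ring

lemma v_tX (N : BP) : ev2 x y (C.tX N) =
    ev2 x y (dX N) * (C.pt x y).D - (C.pt x y).kb * ev2 x y N * x := by
  rw [tX, e_sb, ev2_mu, ev2_sm, ev2_mu, e_x, v_D, C.v_kb x y]; ring
lemma v_tY (N : BP) : ev2 x y (C.tY N) =
    (C.pt x y).kb * ev2 x y N * y - ev2 x y (dY N) * (C.pt x y).D := by
  rw [tY, e_sb, ev2_mu, ev2_sm, ev2_mu, e_y, v_D, C.v_kb x y]; ring

variable {C} (hK : 0 < C.K)
include hK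

lemma v_nr (N : BP) : ev2 x y (C.nrL N) = 2 * C.K *
    (C.pt x y).nr (ev2 x y N / C.K) (ev2 x y (dX N) / C.K) (ev2 x y (dY N) / C.K) := by
  have hK' : (C.K : ℝ) ≠ 0 := by exact_mod_cast hK.ne'
  have hx : (C.pt x y).x = x := rfl
  have hy : (C.pt x y).y = y := rfl
  rw [nrL, ev2_ad, ev2_sm, ev2_mu, e_sb, ev2_mu, ev2_mu, e_f, e_y, v_tX, v_tY, v_D, Pt.nr, hx, hy]
  field_simp
  push_cast
  ring

lemma v_ni (N : BP) : ev2 x y (C.niL N) = 2 * C.K *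
    (C.pt x y).ni (ev2 x y N / C.K) (ev2 x y (dX N) / C.K) (ev2 x y (dY N) / C.K) := by
  have hK' : (C.K : ℝ) ≠ 0 := by exact_mod_cast hK.ne'
  have hx : (C.pt x y).x = x := rfl
  have hy : (C.pt x y).y = y := rfl
  rw [niL, ev2_ad, ev2_mu, ev2_mu, e_f, e_y, v_tX, v_tY, Pt.ni, hx, hy]
  field_simp

lemma v_a1 : ev2 x y C.a1L = 2 * C.K * (C.pt x y).a1 := by
  rw [a1L, e_sb, v_nr x y hK, v_ni x y hK, Pt.a1]
  show _ = 2 * (C.K : ℝ) * ((C.pt x y).nr (ev2 x y C.W / C.K) (ev2 x y (dX C.W) / C.K)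
    (ev2 x y (dY C.W) / C.K) - (C.pt x y).ni (ev2 x y C.V / C.K) (ev2 x y (dX C.V) / C.K)
    (ev2 x y (dY C.V) / C.K))
  ring
lemma v_a2 : ev2 x y C.a2L = 2 * C.K * (C.pt x y).a2 := by
  rw [a2L, ev2_ad, v_nr x y hK, v_ni x y hK, Pt.a2]
  show _ = 2 * (C.K : ℝ) * ((C.pt x y).ni (ev2 x y C.W / C.K) (ev2 x y (dX C.W) / C.K)
    (ev2 x y (dY C.W) / C.K) + (C.pt x y).nr (ev2 x y C.V / C.K) (ev2 x y (dX C.V) / C.K)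
    (ev2 x y (dY C.V) / C.K))
  ring
lemma v_b1 : ev2 x y C.b1L = 2 * C.K * (C.pt x y).b1 := by
  rw [b1L, e_sb, v_nr x y hK, v_ni x y hK, Pt.b1]
  show _ = 2 * (C.K : ℝ) * ((C.pt x y).nr (ev2 x y C.T / C.K) (ev2 x y (dX C.T) / C.K)
    (ev2 x y (dY C.T) / C.K) - (C.pt x y).ni (ev2 x y C.Z / C.K) (ev2 x y (dX C.Z) / C.K)
    (ev2 x y (dY C.Z) / C.K))
  ring
lemma v_b2 : ev2 x y C.b2L = 2 * C.K * (C.pt x y).b2 := by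
  rw [b2L, ev2_ad, v_nr x y hK, v_ni x y hK, Pt.b2]
  show _ = 2 * (C.K : ℝ) * ((C.pt x y).ni (ev2 x y C.T / C.K) (ev2 x y (dX C.T) / C.K)
    (ev2 x y (dY C.T) / C.K) + (C.pt x y).nr (ev2 x y C.Z / C.K) (ev2 x y (dX C.Z) / C.K)
    (ev2 x y (dY C.Z) / C.K))
  ring

lemma v_n4 : ev2 x y C.N4L = C.K * (C.pt x y).n4 := by
  have hK' : (C.K : ℝ) ≠ 0 := by exact_mod_cast hK.ne'
  show _ = (C.K : ℝ) * (ev2 x y C.N4L / C.K); field_simp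
lemma v_V : ev2 x y C.V = C.K * (C.pt x y).nv := by
  have hK' : (C.K : ℝ) ≠ 0 := by exact_mod_cast hK.ne'
  show _ = (C.K : ℝ) * (ev2 x y C.V / C.K); field_simp
lemma v_S : ev2 x y C.S = C.K * (C.pt x y).sg := by
  have hK' : (C.K : ℝ) ≠ 0 := by exact_mod_cast hK.ne'
  show _ = (C.K : ℝ) * (ev2 x y C.S / C.K); field_simp
lemma v_UZ : ev2 x y C.UZ = C.K * ((C.pt x y).nu - (C.pt x y).nz) := by
  have hK' : (C.K : ℝ) ≠ 0 := by exact_mod_cast hK.ne'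
  rw [UZ, e_sb]
  show _ = (C.K : ℝ) * (ev2 x y C.U / C.K - ev2 x y C.Z / C.K); field_simp
lemma v_kk : (C.kk : ℝ) = C.K * (C.pt x y).k2 := by
  have hK' : (C.K : ℝ) ≠ 0 := by exact_mod_cast hK.ne'
  show _ = (C.K : ℝ) * ((C.kk : ℝ) / C.K); field_simp

lemma v_Na : ev2 x y C.NaL = C.K * (C.pt x y).Na := by
  rw [NaL, ev2_ad, e_sb, ev2_sm, ev2_sm, v_E, v_S x y hK, v_UZ x y hK, v_kk x y hK, Pt.Na]
  push_cast; ring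
lemma v_Ng : ev2 x y C.NgL = C.K * (C.pt x y).Ng := by
  rw [NgL, e_sb, e_sb, ev2_sm, ev2_sm, v_E, v_S x y hK, v_UZ x y hK, v_kk x y hK, Pt.Ng]
  push_cast; ring
lemma v_m11 : ev2 x y C.m11L = 4 * C.K ^ 2 * (C.pt x y).m11 := by
  rw [m11L, e_sb, ev2_sm, ev2_mu, ev2_ad, ev2_mu, ev2_mu, v_n4 x y hK, v_Na x y hK,
    v_a1 x y hK, v_a2 x y hK, Pt.m11]
  push_cast; ring
lemma v_m12 : ev2 x y C.m12L = 4 * C.K ^ 2 * (C.pt x y).m12 := by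
  rw [m12L, e_sb, ev2_sm, ev2_mu, ev2_sm, ev2_ad, ev2_mu, ev2_mu, v_n4 x y hK, v_V x y hK,
    v_a1 x y hK, v_a2 x y hK, v_b1 x y hK, v_b2 x y hK, Pt.m12, Pt.Nb]
  push_cast; ring
lemma v_m22 : ev2 x y C.m22L = 4 * C.K ^ 2 * (C.pt x y).m22 := by
  rw [m22L, e_sb, ev2_sm, ev2_mu, ev2_sm, ev2_ad, ev2_mu, ev2_mu, v_n4 x y hK, v_Ng x y hK,
    v_b1 x y hK, v_b2 x y hK, Pt.m22]
  push_cast; ring

lemma v_DE : ev2 x y C.DEL = (C.pt x y).D * (C.pt x y).E := by rw [DEL, ev2_mu, v_D, v_E]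
lemma v_SD : ev2 x y C.SDL = C.K * (C.pt x y).sg * (C.pt x y).D := by
  rw [SDL, ev2_mu, v_D, v_S x y hK]
lemma v_KZ : (C.KZ : ℝ) = C.K := by rw [KZ]; simp
lemma v_N2 : ev2 x y C.N2L = C.K * (C.pt x y).N2 := by
  rw [N2L, ev2_ad, e_sb, ev2_mu, ev2_sm, ev2_mu, ev2_sm, ev2_mu, ev2_mu, e_r2, e_f2,
    v_n4 x y hK, v_D, v_DE x y hK, v_SD x y hK, imul_cast, v_KZ hK, Pt.N2, Pt.ff]
  show _ = (C.K : ℝ) * ((x ^ 2 + y ^ 2) * (C.pt x y).n4 - 4 * ((C.pt x y).D ^ 2 * (C.pt x y).E)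
    + 4 * (C.pt x y).sg * ((x - 1) ^ 2 + y ^ 2) * (C.pt x y).D ^ 2)
  push_cast; ring

variable {p r L : ℤ} (hL : 0 < L)
include hL

lemma v_Na2 : ev2 x y (C.Na2L p r L) = C.K * L * (C.pt x y).Na2 (p / L) (r / L) := by
  have hL' : (L : ℝ) ≠ 0 := by exact_mod_cast hL.ne'
  rw [Na2L, ev2_ad, ev2_ad, e_sb, ev2_sm, ev2_sm, ev2_sm, ev2_mu, ev2_ad, ev2_sm, ev2_sm, ev2_ad,
    ev2_sm, ev2_sm, ev2_sm, e_f2, e_f, e_y, v_E, v_S x y hK, v_UZ x y hK, imul_cast, imul_cast,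
    imul_cast, imul_cast, imul_cast, v_kk x y hK, v_KZ hK, Pt.Na2, Pt.ff]
  show _ = (C.K : ℝ) * L * ((C.pt x y).k2 * (C.pt x y).E + 2 * ((C.pt x y).nu - (C.pt x y).nz)
    - 16 * (p / L) * (C.pt x y).E + 4 * (C.pt x y).sg * (4 * (p / L) * ((x - 1) ^ 2 + y ^ 2)
    + 2 * ((p / L) * (x - 1) + (r / L) * y)))
  field_simp
  push_cast; ring
lemma v_Ng2 : ev2 x y (C.Ng2L L) = C.K * L * (C.pt x y).Ng2 := by
  rw [Ng2L, e_sb, ev2_sm, ev2_sm, v_E, v_UZ x y hK, imul_cast, imul_cast, v_kk x y hK, Pt.Ng2]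
  push_cast; ring
lemma v_Nb2 : ev2 x y (C.Nb2L p r L) = C.K * L * (C.pt x y).Nb2 (p / L) (r / L) := by
  have hL' : (L : ℝ) ≠ 0 := by exact_mod_cast hL.ne'
  rw [Nb2L, ev2_ad, ev2_sm, ev2_sm, ev2_mu, e_sb, ev2_sm, ev2_sm, e_f, e_y, v_S x y hK,
    v_V x y hK, Pt.Nb2]
  show _ = (C.K : ℝ) * L * ((C.pt x y).nv + 4 * (C.pt x y).sg * ((p / L) * y - (r / L) * (x - 1)))
  field_simp
  push_cast; ring
omit hK in
lemma v_c1 : ev2 x y (c1L p r L) = L * (C.pt x y).c1 (p / L) (r / L) := by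
  have hL' : (L : ℝ) ≠ 0 := by exact_mod_cast hL.ne'
  have h1 : ((Int.sub (Int.mul 2 p) L : ℤ) : ℝ) = 2 * p - L := by
    show (((2 * p - L : ℤ)) : ℝ) = _
    push_cast; ring
  rw [c1L, ev2_ad, ev2_sm, ev2_sm, e_f, e_y, h1, imul_cast, Pt.c1]
  show _ = (L : ℝ) * ((2 * (p / L) - 1) * (x - 1) + 2 * (r / L) * y)
  field_simp
  push_cast; ring
omit hK in
lemma v_c2 : ev2 x y (c2L p r L) = L * (C.pt x y).c2 (p / L) (r / L) := by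
  have hL' : (L : ℝ) ≠ 0 := by exact_mod_cast hL.ne'
  have h1 : ((Int.sub (Int.mul 2 p) L : ℤ) : ℝ) = 2 * p - L := by
    show (((2 * p - L : ℤ)) : ℝ) = _
    push_cast; ring
  rw [c2L, e_sb, ev2_sm, ev2_sm, e_f, e_y, h1, imul_cast, Pt.c2]
  show _ = (L : ℝ) * ((2 * (p / L) - 1) * y - 2 * (r / L) * (x - 1))
  field_simp
  push_cast; ring
lemma v_A21 : ev2 x y (C.A21L p r L) = C.K * L * (C.pt x y).A21 (p / L) (r / L) := by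
  have hL' : (L : ℝ) ≠ 0 := by exact_mod_cast hL.ne'
  rw [A21L, ev2_ad, ev2_sm, e_sb, ev2_mu, ev2_mu, e_sb, ev2_mu, ev2_ad, ev2_sm, ev2_sm, ev2_sm,
    e_x, e_y, e_f2, v_a1 x y hK, v_a2 x y hK, v_SD x y hK, v_DE x y hK, v_c1 (C := C) x y hL,
    imul_cast, imul_cast, imul_cast, v_KZ hK, Pt.A21, Pt.ff]
  show _ = (C.K : ℝ) * L * (2 * (x * (C.pt x y).a1 - y * (C.pt x y).a2)
    + (C.pt x y).sg * (C.pt x y).D * (16 * (p / L) * ((x - 1) ^ 2 + y ^ 2)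
    + 4 * (C.pt x y).c1 (p / L) (r / L)) - 16 * (p / L) * ((C.pt x y).D * (C.pt x y).E))
  field_simp
  push_cast; ring
lemma v_A22 : ev2 x y (C.A22L p r L) = C.K * L * (C.pt x y).A22 (p / L) (r / L) := by
  have hL' : (L : ℝ) ≠ 0 := by exact_mod_cast hL.ne'
  rw [A22L, ev2_ad, ev2_sm, ev2_ad, ev2_mu, ev2_mu, ev2_ad, ev2_mu, e_sb, ev2_sm, ev2_sm, ev2_sm,
    e_x, e_y, e_f2, v_a1 x y hK, v_a2 x y hK, v_SD x y hK, v_DE x y hK, v_c2 (C := C) x y hL,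
    imul_cast, imul_cast, imul_cast, v_KZ hK, Pt.A22, Pt.ff]
  show _ = (C.K : ℝ) * L * (2 * (x * (C.pt x y).a2 + y * (C.pt x y).a1)
    + (C.pt x y).sg * (C.pt x y).D * (-16 * (r / L) * ((x - 1) ^ 2 + y ^ 2)
    + 4 * (C.pt x y).c2 (p / L) (r / L)) + 16 * (r / L) * ((C.pt x y).D * (C.pt x y).E))
  field_simp
  push_cast; ring
lemma v_B21 : ev2 x y (C.B21L p r L) = C.K * L * (C.pt x y).B21 (p / L) (r / L) := by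
  rw [B21L, ev2_ad, ev2_sm, e_sb, ev2_mu, ev2_mu, ev2_sm, ev2_mu,
    e_x, e_y, v_b1 x y hK, v_b2 x y hK, v_SD x y hK, v_c2 (C := C) x y hL, Pt.B21]
  show _ = (C.K : ℝ) * L * (2 * (x * (C.pt x y).b1 - y * (C.pt x y).b2)
    + 2 * ((C.pt x y).sg * (C.pt x y).D * (C.pt x y).c2 (p / L) (r / L)))
  push_cast; ring
lemma v_B22 : ev2 x y (C.B22L p r L) = C.K * L * (C.pt x y).B22 (p / L) (r / L) := by
  rw [B22L, e_sb, ev2_sm, ev2_ad, ev2_mu, ev2_mu, ev2_sm, ev2_mu,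
    e_x, e_y, v_b1 x y hK, v_b2 x y hK, v_SD x y hK, v_c1 (C := C) x y hL, Pt.B22]
  show _ = (C.K : ℝ) * L * (2 * (x * (C.pt x y).b2 + y * (C.pt x y).b1)
    - 2 * ((C.pt x y).sg * (C.pt x y).D * (C.pt x y).c1 (p / L) (r / L)))
  push_cast; ring
lemma v_M11 : ev2 x y (C.M11L p r L) =
    (C.K * L) ^ 2 * (C.pt x y).M11 (p / L) (r / L) := by
  rw [M11L, e_sb, ev2_sm, ev2_mu, ev2_ad, ev2_mu, ev2_mu, v_N2 x y hK, v_Na2 x y hK hL,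
    v_A21 x y hK hL, v_A22 x y hK hL, imul_cast, Pt.M11]
  push_cast; ring
lemma v_M12 : ev2 x y (C.M12L p r L) =
    (C.K * L) ^ 2 * (C.pt x y).M12 (p / L) (r / L) := by
  rw [M12L, e_sb, ev2_sm, ev2_mu, ev2_sm, ev2_ad, ev2_mu, ev2_mu, v_N2 x y hK, v_Nb2 x y hK hL,
    v_A21 x y hK hL, v_A22 x y hK hL, v_B21 x y hK hL, v_B22 x y hK hL, imul_cast, Pt.M12]
  push_cast; ring
lemma v_M22 : ev2 x y (C.M22L p r L) =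
    (C.K * L) ^ 2 * (C.pt x y).M22 (p / L) (r / L) := by
  rw [M22L, e_sb, ev2_sm, ev2_mu, ev2_sm, ev2_ad, ev2_mu, ev2_mu, v_N2 x y hK, v_Ng2 x y hK hL,
    v_B21 x y hK hL, v_B22 x y hK hL, imul_cast, Pt.M22]
  push_cast; ring

end val

end CD

end Pool.Agent.Helper71.EKC
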