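import Pool.Agent.Helper71.EK.Alg

/-!
Certificate algebra for a general direction: abstract form with real parameters at one point.
`al1 + i al2` is `(1+u)/2`, `|u| = 1`.
-/

set_option autoImplicit false

namespace Pool.Agent.Helper71.EKC

open Pool.Agent.Helper71.EK

/-- values at one point -/
structure Pt where
  x : ℝ
  y : ℝ
  D : ℝ
  E : ℝ
  kb : ℝ
  k2 : ℝ
  n4 : ℝ
  nu : ℝ
  nv : ℝ
  nvx : ℝ
  nvy : ℝ
  nz : ℝ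
  nzx : ℝ
  nzy : ℝ
  nw : ℝ
  nwx : ℝ
  nwy : ℝ
  nt : ℝ
  ntx : ℝ
  nty : ℝ
  sg : ℝ

namespace Pt

variable (P : Pt)

noncomputable def ff : ℝ := (P.x - 1) ^ 2 + P.y ^ 2

noncomputable def nr (N Nx Ny : ℝ) : ℝ :=
  N * P.D + 1 / 2 * ((P.x - 1) * (Nx * P.D - P.kb * N * P.x) - P.y * (P.kb * N * P.y - Ny * P.D))

noncomputable def ni (N Nx Ny : ℝ) : ℝ :=
  1 / 2 * ((P.x - 1) * (P.kb * N * P.y - Ny * P.D) + P.y * (Nx * P.D - P.kb * N * P.x))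

noncomputable def a1 : ℝ := P.nr P.nw P.nwx P.nwy - P.ni P.nv P.nvx P.nvy
noncomputable def a2 : ℝ := P.ni P.nw P.nwx P.nwy + P.nr P.nv P.nvx P.nvy
noncomputable def b1 : ℝ := P.nr P.nt P.ntx P.nty - P.ni P.nz P.nzx P.nzy
noncomputable def b2 : ℝ := P.ni P.nt P.ntx P.nty + P.nr P.nz P.nzx P.nzy

noncomputable def Na : ℝ := P.k2 * P.E - P.sg + 2 * (P.nu - P.nz)
noncomputable def Ng : ℝ := P.k2 * P.E - P.sg - 2 * (P.nu - P.nz)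
noncomputable def Nb : ℝ := P.nv

noncomputable def m11 : ℝ := P.n4 * P.Na - (P.a1 ^ 2 + P.a2 ^ 2)
noncomputable def m12 : ℝ := P.n4 * P.Nb - 2 * (P.a1 * P.b1 + P.a2 * P.b2)
noncomputable def m22 : ℝ := P.n4 * P.Ng - 4 * (P.b1 ^ 2 + P.b2 ^ 2)

noncomputable def N2 : ℝ :=
  (P.x ^ 2 + P.y ^ 2) * P.n4 - 4 * (P.D ^ 2 * P.E) + 4 * P.sg * P.ff * P.D ^ 2

variable (al1 al2 : ℝ)

noncomputable def Na2 : ℝ := P.k2 * P.E + 2 * (P.nu - P.nz) - 16 * al1 * P.E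
  + 4 * P.sg * (4 * al1 * P.ff + 2 * (al1 * (P.x - 1) + al2 * P.y))
noncomputable def Ng2 : ℝ := P.k2 * P.E - 2 * (P.nu - P.nz)
noncomputable def Nb2 : ℝ := P.nv + 4 * P.sg * (al1 * P.y - al2 * (P.x - 1))
/-- `conj u * (X - 1)` -/
noncomputable def c1 : ℝ := (2 * al1 - 1) * (P.x - 1) + 2 * al2 * P.y
noncomputable def c2 : ℝ := (2 * al1 - 1) * P.y - 2 * al2 * (P.x - 1)
noncomputable def A21 : ℝ := 2 * (P.x * P.a1 - P.y * P.a2)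
  + P.sg * P.D * (16 * al1 * P.ff + 4 * P.c1 al1 al2) - 16 * al1 * (P.D * P.E)
noncomputable def A22 : ℝ := 2 * (P.x * P.a2 + P.y * P.a1)
  + P.sg * P.D * (-16 * al2 * P.ff + 4 * P.c2 al1 al2) + 16 * al2 * (P.D * P.E)
noncomputable def B21 : ℝ := 2 * (P.x * P.b1 - P.y * P.b2) + 2 * (P.sg * P.D * P.c2 al1 al2)
noncomputable def B22 : ℝ := 2 * (P.x * P.b2 + P.y * P.b1) - 2 * (P.sg * P.D * P.c1 al1 al2)

noncomputable def M11 : ℝ :=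
  4 * P.N2 * P.Na2 al1 al2 - (P.A21 al1 al2 ^ 2 + P.A22 al1 al2 ^ 2)
noncomputable def M12 : ℝ := 4 * P.N2 * P.Nb2 al1 al2
  - 2 * (P.A21 al1 al2 * P.B21 al1 al2 + P.A22 al1 al2 * P.B22 al1 al2)
noncomputable def M22 : ℝ :=
  4 * P.N2 * P.Ng2 - 4 * (P.B21 al1 al2 ^ 2 + P.B22 al1 al2 ^ 2)

/-- potential and its partial derivatives -/
noncomputable def g (N : ℝ) : ℝ := P.ff * N / P.E
noncomputable def gx (N Nx : ℝ) : ℝ :=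
  ((2 * (P.x - 1) * N + P.ff * Nx) * P.D - P.kb * P.x * (P.ff * N)) / (P.E * P.D)
noncomputable def gy (N Ny : ℝ) : ℝ :=
  ((2 * P.y * N + P.ff * Ny) * P.D - P.kb * P.y * (P.ff * N)) / (P.E * P.D)

/-- the right side of the certificate -/
noncomputable def EE (y1 y2 s c : ℝ) : ℝ :=
  P.k2 * P.ff
    + (s ^ 2 * (P.n4 / (P.E * P.D ^ 2)) * (y1 ^ 2 + y2 ^ 2)
      - 2 * (c ^ 2 - s ^ 2) * P.g P.nu)
    + (s ^ 2 * (P.gx P.nw P.nwx * y1 + P.gy P.nw P.nwy * y2)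
      + 2 * s * c * (P.gx P.nt P.ntx * y1 + P.gy P.nt P.nty * y2))
    + (s ^ 2 * (-P.gx P.nv P.nvx * y2 + P.gy P.nv P.nvy * y1)
      + 2 * s * c * P.g P.nv)
    + (2 * s * c * (-P.gx P.nz P.nzx * y2 + P.gy P.nz P.nzy * y1)
      + 2 * (c ^ 2 - s ^ 2) * P.g P.nz)

end Pt

/-- completing the square in `u = (u1, u2)` -/
lemma square' {D E N h g1 g2 f1 f2 : ℝ} (hD : 0 < D) (hE : 0 < E) (hN : 0 < N)
    (hg : g1 ^ 2 + g2 ^ 2 ≤ N * h) (u1 u2 : ℝ) :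
    0 ≤ N / (E * D ^ 2) * (u1 ^ 2 + u2 ^ 2)
      + 2 / (E * D) * ((f1 * g1 + f2 * g2) * u1 - (f1 * g2 - f2 * g1) * u2)
      + (f1 ^ 2 + f2 ^ 2) * h / E := by
  have key : E * D ^ 2 * N * (N / (E * D ^ 2) * (u1 ^ 2 + u2 ^ 2)
      + 2 / (E * D) * ((f1 * g1 + f2 * g2) * u1 - (f1 * g2 - f2 * g1) * u2)
      + (f1 ^ 2 + f2 ^ 2) * h / E) =
      (N * u1 + D * (f1 * g1 + f2 * g2)) ^ 2 + (N * u2 - D * (f1 * g2 - f2 * g1)) ^ 2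
      + D ^ 2 * (f1 ^ 2 + f2 ^ 2) * (N * h - (g1 ^ 2 + g2 ^ 2)) := by
    field_simp
    ring
  have hpos : 0 < E * D ^ 2 * N := by positivity
  refine nonneg_of_mul_nonneg_right ?_ hpos
  rw [key]
  have : 0 ≤ N * h - (g1 ^ 2 + g2 ^ 2) := by linarith
  positivity

/-- first condition: `E ≥ σ` -/
lemma cond1g (P : Pt) (hD : 0 < P.D) (hE : 0 < P.E) (hN : 0 < P.n4) (h11 : 0 ≤ P.m11)
    (h22 : 0 ≤ P.m22) (h12 : P.m12 ^ 2 ≤ P.m11 * P.m22) {s c : ℝ} (h : s ^ 2 + c ^ 2 = 1)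
    (y1 y2 : ℝ) : P.ff * P.sg / P.E ≤ P.EE y1 y2 s c := by
  have hq := form2 h11 h22 h12 s c
  have hsq := square' (h := P.Na * s ^ 2 + 2 * P.Nb * (s * c) + P.Ng * c ^ 2)
    (g1 := s * P.a1 + 2 * c * P.b1) (g2 := s * P.a2 + 2 * c * P.b2)
    (f1 := P.x - 1) (f2 := P.y) hD hE hN
    (by unfold Pt.m11 Pt.m12 Pt.m22 at hq; linarith) (s * y1) (s * y2)
  have e : P.EE y1 y2 s c - P.ff * P.sg / P.E =
      P.n4 / (P.E * P.D ^ 2) * ((s * y1) ^ 2 + (s * y2) ^ 2)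
      + 2 / (P.E * P.D) * (((P.x - 1) * (s * P.a1 + 2 * c * P.b1)
        + P.y * (s * P.a2 + 2 * c * P.b2)) * (s * y1)
        - ((P.x - 1) * (s * P.a2 + 2 * c * P.b2) - P.y * (s * P.a1 + 2 * c * P.b1)) * (s * y2))
      + ((P.x - 1) ^ 2 + P.y ^ 2) * (P.Na * s ^ 2 + 2 * P.Nb * (s * c) + P.Ng * c ^ 2) / P.E
      + P.ff * (P.k2 * P.E - P.sg) * (1 - s ^ 2 - c ^ 2) / P.E := by
    unfold Pt.EE Pt.g Pt.gx Pt.gy Pt.a1 Pt.a2 Pt.b1 Pt.b2 Pt.nr Pt.ni Pt.Na Pt.Nb Pt.Ng Pt.ff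
    have hD' := hD.ne'
    have hE' := hE.ne'
    field_simp
    ring
  have : (1 - s ^ 2 - c ^ 2 : ℝ) = 0 := by linarith
  rw [this, mul_zero, zero_div, add_zero] at e
  linarith

/-- `|v|²`, with `|α|²` replaced by `al1` -/
noncomputable def vv (P : Pt) (al1 al2 q1 q2 : ℝ) : ℝ :=
  4 * al1 * P.ff + 4 * ((al1 * (P.x - 1) - al2 * P.y) * q1
    + (al1 * P.y + al2 * (P.x - 1)) * q2) + (q1 ^ 2 + q2 ^ 2)
noncomputable def v1 (P : Pt) (al1 al2 q1 q2 : ℝ) : ℝ :=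
  2 * (al1 * (P.x - 1) + al2 * P.y) + (2 * al1 - 1) * q1 + 2 * al2 * q2
noncomputable def v2 (P : Pt) (al1 al2 q1 q2 : ℝ) : ℝ :=
  2 * (al1 * P.y - al2 * (P.x - 1)) + (2 * al1 - 1) * q2 - 2 * al2 * q1

/-- the second condition, a function of `α` -/
noncomputable def FF (P : Pt) (al1 al2 q1 q2 s c : ℝ) : ℝ :=
  P.EE (P.x * q1 - P.y * q2) (P.x * q2 + P.y * q1) s c
    + P.ff * P.sg / P.E * (4 * s ^ 2 * (vv P al1 al2 q1 q2 + v1 P al1 al2 q1 q2)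
      + 4 * s * c * v2 P al1 al2 q1 q2)
    - 4 * s ^ 2 * vv P al1 al2 q1 q2

lemma FF_affine (P : Pt) {l1 l2 l3 : ℝ} (hl : l1 + l2 + l3 = 1)
    (p1 r1 p2 r2 p3 r3 q1 q2 s c : ℝ) :
    FF P (l1 * p1 + l2 * p2 + l3 * p3) (l1 * r1 + l2 * r2 + l3 * r3) q1 q2 s c =
      l1 * FF P p1 r1 q1 q2 s c + l2 * FF P p2 r2 q1 q2 s c + l3 * FF P p3 r3 q1 q2 s c := by
  have e : l3 = 1 - l1 - l2 := by linarith
  subst e
  unfold FF vv v1 v2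
  ring

lemma cond2g (P : Pt) (hD : 0 < P.D) (hE : 0 < P.E) (hN : 0 < P.N2) (al1 al2 : ℝ)
    (h11 : 0 ≤ P.M11 al1 al2) (h22 : 0 ≤ P.M22 al1 al2)
    (h12 : P.M12 al1 al2 ^ 2 ≤ P.M11 al1 al2 * P.M22 al1 al2) {s c : ℝ}
    (h : s ^ 2 + c ^ 2 = 1) (q1 q2 : ℝ) : 0 ≤ FF P al1 al2 q1 q2 s c := by
  have hq := form2 h11 h22 h12 s c
  have hsq := square' (h := P.Na2 al1 al2 * s ^ 2 + 2 * P.Nb2 al1 al2 * (s * c) + P.Ng2 * c ^ 2)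
    (g1 := s * P.A21 al1 al2 / 2 + c * P.B21 al1 al2)
    (g2 := s * P.A22 al1 al2 / 2 + c * P.B22 al1 al2)
    (f1 := P.x - 1) (f2 := P.y) hD hE hN
    (by unfold Pt.M11 Pt.M12 Pt.M22 at hq; linarith) (s * q1) (s * q2)
  have e : FF P al1 al2 q1 q2 s c =
      P.N2 / (P.E * P.D ^ 2) * ((s * q1) ^ 2 + (s * q2) ^ 2)
      + 2 / (P.E * P.D) * (((P.x - 1) * (s * P.A21 al1 al2 / 2 + c * P.B21 al1 al2)
        + P.y * (s * P.A22 al1 al2 / 2 + c * P.B22 al1 al2)) * (s * q1)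
        - ((P.x - 1) * (s * P.A22 al1 al2 / 2 + c * P.B22 al1 al2)
          - P.y * (s * P.A21 al1 al2 / 2 + c * P.B21 al1 al2)) * (s * q2))
      + ((P.x - 1) ^ 2 + P.y ^ 2) * (P.Na2 al1 al2 * s ^ 2 + 2 * P.Nb2 al1 al2 * (s * c)
        + P.Ng2 * c ^ 2) / P.E
      + P.ff * P.k2 * (1 - s ^ 2 - c ^ 2) := by
    unfold FF vv v1 v2 Pt.EE Pt.g Pt.gx Pt.gy Pt.A21 Pt.A22 Pt.B21 Pt.B22 Pt.c1 Pt.c2 Pt.a1
      Pt.a2 Pt.b1 Pt.b2 Pt.nr Pt.ni Pt.Na2 Pt.Nb2 Pt.Ng2 Pt.N2 Pt.ff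
    have hD' := hD.ne'
    have hE' := hE.ne'
    field_simp
    ring
  have : (1 - s ^ 2 - c ^ 2 : ℝ) = 0 := by linarith
  rw [this, mul_zero, add_zero] at e
  linarith

end Pool.Agent.Helper71.EKC
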