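import Pool.Agent.Helper71.EK.Tr

/-!
Trees of boxes for the whole plane: kind 0 is a rectangle in `(x, y)`, kinds 1 to 4 are
rectangles in `(τ, v)` with `x = 1/τ, y = v/τ` and its images.
-/

namespace Pool.EK71

def frm2 (kind : ℕ) (X1 X0 Y1 Y0 : ℤ) : ℤ × ℤ × ℤ :=
  match kind with
  | 0 => (Int.mul X1 Y0, Int.mul X0 Y1, Int.mul X0 Y0)
  | 1 => (Int.mul X0 Y0, Int.mul X0 Y1, Int.mul X1 Y0)
  | 2 => (Int.mul X0 Y1, Int.mul X0 Y0, Int.mul X1 Y0)
  | 3 => (Int.mul (Int.neg X0) Y0, Int.mul X0 Y1, Int.mul X1 Y0)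
  | _ => (Int.mul X0 Y1, Int.mul (Int.neg X0) Y0, Int.mul X1 Y0)

def nfrm2 (kind : ℕ) (X1 X0 Y1 Y0 : ℕ) : ℕ × ℕ × ℕ :=
  match kind with
  | 0 => (X1 * Y0, X0 * Y1, X0 * Y0)
  | 1 => (X0 * Y0, X0 * Y1, X1 * Y0)
  | 2 => (X0 * Y1, X0 * Y0, X1 * Y0)
  | 3 => (X0 * Y0, X0 * Y1, X1 * Y0)
  | _ => (X0 * Y1, X0 * Y0, X1 * Y0)

/-- test of the box `[a/e, b/e] × [c/e, d/e]` -/
def bx2 (D : Dat) (kind : ℕ) (e : ℤ) (l : ℕ) (a b c d : ℤ) : Bool :=
  let W := 2 * D.H
  let w : ℤ := Int.ofNat W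
  let z : ℤ := Int.ofNat (W ^ (D.N + 1))
  let z' : ℤ := Int.ofNat (W ^ (D.N' + 1))
  let Y1 := Int.add c (Int.mul d w)
  let Y0 := Int.add e (Int.mul e w)
  let F := frm2 kind (Int.add a (Int.mul b z)) (Int.add e (Int.mul e z)) Y1 Y0
  let F' := frm2 kind (Int.add a (Int.mul b z')) (Int.add e (Int.mul e z')) Y1 Y0
  let n := nfrm2 kind (a.natAbs + b.natAbs) (e.natAbs + e.natAbs) (c.natAbs + d.natAbs)
    (e.natAbs + e.natAbs)
  Nat.blt 0 l &&
  four D.N W D.H (Int.ofNat l) (hpol F.1 F.2.1 F.2.2 D.P11) (hpol F.1 F.2.1 F.2.2 D.P12)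
    (hpol F.1 F.2.1 F.2.2 D.P22) &&
  nfour D.H l (npol n.1 n.2.1 n.2.2 D.P11) (npol n.1 n.2.1 n.2.2 D.P12)
    (npol n.1 n.2.1 n.2.2 D.P22) &&
  tst D.N' W D.H (hpol F'.1 F'.2.1 F'.2.2 D.Q) &&
  Nat.blt (npol n.1 n.2.1 n.2.2 D.Q) D.H

/-- abstract soundness -/
lemma bx2_sound {D : Dat} (hs : D.shape = true) {kind l : ℕ} {e a b c d : ℤ}
    (hb : bx2 D kind e l a b c d = true) {T0 T1 V0 V1 : ℝ} (hT0 : 0 ≤ T0) (hT1 : 0 ≤ T1)
    (hV0 : 0 ≤ V0) (hV1 : 0 ≤ V1) {x y Cφ : ℝ} (hCpos : 0 < Cφ)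
    (hF : ∀ Z W : ℤ,
      Mk Z W T0 T1 V0 V1 (nfrm2 kind (a.natAbs + b.natAbs) (e.natAbs + e.natAbs)
        (c.natAbs + d.natAbs) (e.natAbs + e.natAbs)).1
        (frm2 kind (a + b * Z) (e + e * Z) (c + d * W) (e + e * W)).1 (Cφ * x) ∧
      Mk Z W T0 T1 V0 V1 (nfrm2 kind (a.natAbs + b.natAbs) (e.natAbs + e.natAbs)
        (c.natAbs + d.natAbs) (e.natAbs + e.natAbs)).2.1
        (frm2 kind (a + b * Z) (e + e * Z) (c + d * W) (e + e * W)).2.1 (Cφ * y) ∧
      Mk Z W T0 T1 V0 V1 (nfrm2 kind (a.natAbs + b.natAbs) (e.natAbs + e.natAbs)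
        (c.natAbs + d.natAbs) (e.natAbs + e.natAbs)).2.2
        (frm2 kind (a + b * Z) (e + e * Z) (c + d * W) (e + e * W)).2.2 Cφ) :
    Good D x y := by
  simp only [bx2, Bool.and_eq_true] at hb
  obtain ⟨⟨⟨⟨hl, h4⟩, hn⟩, hq⟩, hqn⟩ := hb
  simp only [four, Bool.and_eq_true] at h4
  obtain ⟨⟨⟨t1, t2⟩, t3⟩, t4⟩ := h4
  simp only [nfour, Bool.and_eq_true] at hn
  obtain ⟨n1, n2⟩ := hn
  have n1 := Eq.mp Nat.blt_eq n1
  have n2 := Eq.mp Nat.blt_eq n2
  have hl := Eq.mp Nat.blt_eq hl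
  have hqn := Eq.mp Nat.blt_eq hqn
  simp only [Dat.shape, Bool.and_eq_true] at hs
  obtain ⟨⟨⟨s11, s12⟩, s22⟩, sQ⟩ := hs
  have hW : 2 * D.H = 2 * D.H := rfl
  have cW : (Int.ofNat (2 * D.H) : ℤ) = ((2 * D.H : ℕ) : ℤ) := rfl
  have cZ : (Int.ofNat ((2 * D.H) ^ (D.N + 1)) : ℤ) = ((2 * D.H : ℕ) : ℤ) ^ (D.N + 1) := by
    show (((2 * D.H) ^ (D.N + 1) : ℕ) : ℤ) = _
    push_cast; ring
  have cZ' : (Int.ofNat ((2 * D.H) ^ (D.N' + 1)) : ℤ) = ((2 * D.H : ℕ) : ℤ) ^ (D.N' + 1) := by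
    show (((2 * D.H) ^ (D.N' + 1) : ℕ) : ℤ) = _
    push_cast; ring
  obtain ⟨fA, fB, fC⟩ := hF (((2 * D.H : ℕ) : ℤ) ^ (D.N + 1)) ((2 * D.H : ℕ) : ℤ)
  obtain ⟨gA, gB, gC⟩ := hF (((2 * D.H : ℕ) : ℤ) ^ (D.N' + 1)) ((2 * D.H : ℕ) : ℤ)
  rw [cW, cZ] at t1 t2 t3 t4
  rw [cW, cZ'] at hq
  have r1 := box_pos2 hW s11 s12 16 (l : ℤ) hT0 hT1 hV0 hV1 hCpos fA fB fC
    (by simpa using n1) t1
  have r2 := box_pos2 hW s11 s12 16 (-(l : ℤ)) hT0 hT1 hV0 hV1 hCpos fA fB fC
    (by simpa using n1) t2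
  have r3 := box_pos2 hW s22 s12 (l : ℤ) 16 hT0 hT1 hV0 hV1 hCpos fA fB fC
    (by simpa using n2) t3
  have r4 := box_pos2 hW s22 s12 (l : ℤ) (-16) hT0 hT1 hV0 hV1 hCpos fA fB fC
    (by simpa using n2) t4
  have r5 := box_pos hW sQ hT0 hT1 hV0 hV1 hCpos gA gB gC hqn hq
  have hl' : (0 : ℝ) < (l : ℝ) := by exact_mod_cast hl
  push_cast at r1 r2 r3 r4
  obtain ⟨g1, g2, g3⟩ := good_of hl' r1 r2 r3 r4
  exact ⟨g1, g2, g3, r5⟩

/-- the point of kind `kind` with parameters `(p, v)` -/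
def At (kind : ℕ) (p v x y : ℝ) : Prop :=
  match kind with
  | 0 => x = p ∧ y = v
  | 1 => 0 < p ∧ p * x = 1 ∧ p * y = v
  | 2 => 0 < p ∧ p * x = v ∧ p * y = 1
  | 3 => 0 < p ∧ p * x = -1 ∧ p * y = v
  | _ => 0 < p ∧ p * x = v ∧ p * y = -1

lemma good_box {D : Dat} (hs : D.shape = true) {kind l : ℕ} {a b c d e : ℤ} (he : 0 < e)
    (hab : a < b) (hcd : c < d) (hb : bx2 D kind e l a b c d = true) {p v x y : ℝ}
    (hA : At kind p v x y) (h1 : (a : ℝ) ≤ e * p)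
    (h2 : e * p ≤ (b : ℝ)) (h3 : (c : ℝ) ≤ e * v) (h4 : e * v ≤ (d : ℝ)) : Good D x y := by
  have he' : (0 : ℝ) < e := by exact_mod_cast he
  have hab' : (0 : ℝ) < b - a := by have : (a : ℝ) < b := by exact_mod_cast hab
                                    linarith
  have hcd' : (0 : ℝ) < d - c := by have : (c : ℝ) < d := by exact_mod_cast hcd
                                    linarith
  have key : ∀ Z W : ℤ,
    Mk Z W (b - e * p) (e * p - a) (d - e * v) (e * v - c)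
      ((a.natAbs + b.natAbs) * (e.natAbs + e.natAbs))
      (Int.mul (a + b * Z) (e + e * W)) (((b - a) * (e * p)) * (e * (d - c))) ∧
    Mk Z W (b - e * p) (e * p - a) (d - e * v) (e * v - c)
      ((e.natAbs + e.natAbs) * (c.natAbs + d.natAbs))
      (Int.mul (e + e * Z) (c + d * W)) ((e * (b - a)) * ((d - c) * (e * v))) ∧
    Mk Z W (b - e * p) (e * p - a) (d - e * v) (e * v - c)
      ((e.natAbs + e.natAbs) * (e.natAbs + e.natAbs))
      (Int.mul (e + e * Z) (e + e * W)) ((e * (b - a)) * (e * (d - c))) ∧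
    Mk Z W (b - e * p) (e * p - a) (d - e * v) (e * v - c)
      ((e.natAbs + e.natAbs) * (e.natAbs + e.natAbs))
      (Int.mul (Int.neg (e + e * Z)) (e + e * W)) (-((e * (b - a)) * (e * (d - c)))) := by
    intro Z W
    obtain ⟨p1, p2, p3, _, _⟩ := mk_frm (Z := Z) (W := W) (T0 := b - e * p) (T1 := e * p - a)
      (V0 := d - e * v) (V1 := e * v - c) a b e e c d e (X1 := (b - a) * (e * p))
      (X0 := e * (b - a)) (Y1 := (d - c) * (e * v)) (Y0 := e * (d - c)) (by ring) (by ring)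
      (by ring) (by ring)
    obtain ⟨_, _, _, _, p5⟩ := mk_frm (Z := Z) (W := W) (T0 := b - e * p) (T1 := e * p - a)
      (V0 := d - e * v) (V1 := e * v - c) e e e e c d e (X1 := e * (b - a))
      (X0 := e * (b - a)) (Y1 := (d - c) * (e * v)) (Y0 := e * (d - c)) (by ring) (by ring)
      (by ring) (by ring)
    refine ⟨p1, p2, p3, ?_⟩
    rw [show -((e * (b - a)) * (e * (d - c)) : ℝ) = -(e * (b - a)) * (e * (d - c)) by ring]
    exact p5
  match kind, hA, hb with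
  | 0, hA, hb =>
    obtain ⟨rfl, rfl⟩ := hA
    refine bx2_sound hs hb (T0 := b - e * x) (T1 := e * x - a) (V0 := d - e * y)
      (V1 := e * y - c) (by linarith) (by linarith) (by linarith) (by linarith)
      (Cφ := (e * (b - a)) * (e * (d - c))) (by positivity) (fun Z W => ?_)
    obtain ⟨p1, p2, p3, _⟩ := key Z W
    refine ⟨?_, ?_, p3⟩
    · rw [show (e * (b - a)) * (e * (d - c)) * x = ((b - a) * (e * x)) * (e * (d - c) : ℝ)
        by ring]
      exact p1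
    · rw [show (e * (b - a)) * (e * (d - c)) * y = (e * (b - a)) * ((d - c) * (e * y) : ℝ)
        by ring]
      exact p2
  | 1, hA, hb =>
    obtain ⟨hp, e1, e2⟩ := hA
    refine bx2_sound hs hb (T0 := b - e * p) (T1 := e * p - a) (V0 := d - e * v)
      (V1 := e * v - c) (by linarith) (by linarith) (by linarith) (by linarith)
      (Cφ := ((b - a) * (e * p)) * (e * (d - c))) (by positivity) (fun Z W => ?_)
    obtain ⟨p1, p2, p3, _⟩ := key Z W
    refine ⟨?_, ?_, p1⟩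
    · rw [show ((b - a) * (e * p)) * (e * (d - c)) * x = (e * (b - a)) * (e * (d - c) : ℝ)
        by linear_combination (e * (b - a)) * (e * (d - c)) * e1]
      exact p3
    · rw [show ((b - a) * (e * p)) * (e * (d - c)) * y = (e * (b - a)) * ((d - c) * (e * v) : ℝ)
        by linear_combination (e * (b - a)) * (e * (d - c)) * e2]
      exact p2
  | 2, hA, hb =>
    obtain ⟨hp, e1, e2⟩ := hA
    refine bx2_sound hs hb (T0 := b - e * p) (T1 := e * p - a) (V0 := d - e * v)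
      (V1 := e * v - c) (by linarith) (by linarith) (by linarith) (by linarith)
      (Cφ := ((b - a) * (e * p)) * (e * (d - c))) (by positivity) (fun Z W => ?_)
    obtain ⟨p1, p2, p3, _⟩ := key Z W
    refine ⟨?_, ?_, p1⟩
    · rw [show ((b - a) * (e * p)) * (e * (d - c)) * x = (e * (b - a)) * ((d - c) * (e * v) : ℝ)
        by linear_combination (e * (b - a)) * (e * (d - c)) * e1]
      exact p2
    · rw [show ((b - a) * (e * p)) * (e * (d - c)) * y = (e * (b - a)) * (e * (d - c) : ℝ)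
        by linear_combination (e * (b - a)) * (e * (d - c)) * e2]
      exact p3
  | 3, hA, hb =>
    obtain ⟨hp, e1, e2⟩ := hA
    refine bx2_sound hs hb (T0 := b - e * p) (T1 := e * p - a) (V0 := d - e * v)
      (V1 := e * v - c) (by linarith) (by linarith) (by linarith) (by linarith)
      (Cφ := ((b - a) * (e * p)) * (e * (d - c))) (by positivity) (fun Z W => ?_)
    obtain ⟨p1, p2, _, p4⟩ := key Z W
    refine ⟨?_, ?_, p1⟩
    · rw [show ((b - a) * (e * p)) * (e * (d - c)) * x = -((e * (b - a)) * (e * (d - c)) : ℝ)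
        by linear_combination (e * (b - a)) * (e * (d - c)) * e1]
      exact p4
    · rw [show ((b - a) * (e * p)) * (e * (d - c)) * y = (e * (b - a)) * ((d - c) * (e * v) : ℝ)
        by linear_combination (e * (b - a)) * (e * (d - c)) * e2]
      exact p2
  | (n + 4), hA, hb =>
    obtain ⟨hp, e1, e2⟩ := hA
    refine bx2_sound hs hb (T0 := b - e * p) (T1 := e * p - a) (V0 := d - e * v)
      (V1 := e * v - c) (by linarith) (by linarith) (by linarith) (by linarith)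
      (Cφ := ((b - a) * (e * p)) * (e * (d - c))) (by positivity) (fun Z W => ?_)
    obtain ⟨p1, p2, _, p4⟩ := key Z W
    refine ⟨?_, ?_, p1⟩
    · rw [show ((b - a) * (e * p)) * (e * (d - c)) * x = (e * (b - a)) * ((d - c) * (e * v) : ℝ)
        by linear_combination (e * (b - a)) * (e * (d - c)) * e1]
      exact p2
    · rw [show ((b - a) * (e * p)) * (e * (d - c)) * y = -((e * (b - a)) * (e * (d - c)) : ℝ)
        by linear_combination (e * (b - a)) * (e * (d - c)) * e2]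
      exact p4

def chk2 (D : Dat) (kind : ℕ) (e : ℤ) : Tree → ℤ → ℤ → ℤ → ℤ → Bool
  | .leaf l, a, b, c, d => ilt a b && (ilt c d && bx2 D kind e l a b c d)
  | .sx m t u, a, b, c, d => chk2 D kind e t a m c d && chk2 D kind e u m b c d
  | .sy m t u, a, b, c, d => chk2 D kind e t a b c m && chk2 D kind e u a b m d

lemma chk2_sound {D : Dat} (hs : D.shape = true) {kind : ℕ} {e : ℤ} (he : 0 < e) (t : Tree)
    (a b c d : ℤ) (h : chk2 D kind e t a b c d = true) {p v x y : ℝ} (hA : At kind p v x y)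
    (h1 : (a : ℝ) ≤ e * p) (h2 : e * p ≤ (b : ℝ)) (h3 : (c : ℝ) ≤ e * v)
    (h4 : e * v ≤ (d : ℝ)) : Good D x y := by
  induction t generalizing a b c d with
  | leaf l =>
    simp only [chk2, Bool.and_eq_true, ilt, decide_eq_true_eq] at h
    exact good_box hs he h.1 h.2.1 h.2.2 hA h1 h2 h3 h4
  | sx m t u iht ihu =>
    simp only [chk2, Bool.and_eq_true] at h
    rcases le_total (e * p) (m : ℝ) with h5 | h5
    · exact iht a m c d h.1 h1 h5 h3 h4
    · exact ihu m b c d h.2 h5 h2 h3 h4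
  | sy m t u iht ihu =>
    simp only [chk2, Bool.and_eq_true] at h
    rcases le_total (e * v) (m : ℝ) with h5 | h5
    · exact iht a b c m h.1 h1 h2 h3 h5
    · exact ihu a b m d h.2 h1 h2 h5 h4

/-- the cover of the plane -/
lemma cover2 {D : Dat} (hs : D.shape = true) (e : ℤ) (he : 0 < e) (t0 t1 t2 t3 t4 : Tree)
    (h0 : chk2 D 0 e t0 (-e) e (-e) e = true)
    (h1 : chk2 D 1 e t1 0 e (-e) e = true)
    (h2 : chk2 D 2 e t2 0 e (-e) e = true)
    (h3 : chk2 D 3 e t3 0 e (-e) e = true)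
    (h4 : chk2 D 4 e t4 0 e (-e) e = true) (x y : ℝ) : Good D x y := by
  have he' : (0 : ℝ) < e := by exact_mod_cast he
  have fin : ∀ (kind : ℕ) (t : Tree), chk2 D kind e t 0 e (-e) e = true → ∀ w : ℝ, 1 ≤ w →
      ∀ v : ℝ, |v| ≤ w → At kind (1 / w) (v / w) x y → Good D x y := by
    intro kind t ht w hw v hv hA
    have hw0 : 0 < w := by linarith
    obtain ⟨hv1, hv2⟩ := abs_le.1 hv
    have b1 : 0 ≤ 1 / w := by positivity
    have b2 : 1 / w ≤ 1 := by rw [div_le_one hw0]; exact hw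
    have b3 : -1 ≤ v / w := by rw [le_div_iff₀ hw0]; linarith
    have b4 : v / w ≤ 1 := by rw [div_le_one hw0]; exact hv2
    refine chk2_sound hs he t _ _ _ _ ht hA ?_ ?_ ?_ ?_
    · push_cast; positivity
    · nlinarith
    · push_cast; nlinarith
    · nlinarith
  rcases le_total |x| |y| with hxy | hxy
  · rcases le_total |y| 1 with hy | hy
    · obtain ⟨y1, y2⟩ := abs_le.1 hy
      obtain ⟨x1, x2⟩ := abs_le.1 (hxy.trans hy)
      exact chk2_sound hs he t0 _ _ _ _ h0 (p := x) (v := y) ⟨rfl, rfl⟩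
        (by push_cast; nlinarith) (by nlinarith) (by push_cast; nlinarith) (by nlinarith)
    · rcases abs_cases y with ⟨hy', _⟩ | ⟨hy', _⟩
      · rw [hy'] at hy hxy
        refine fin 2 t2 h2 y hy x hxy ⟨by positivity, ?_, ?_⟩
        · ring
        · field_simp
      · rw [hy'] at hy hxy
        have hy0 : y ≠ 0 := by intro h0; rw [h0] at hy; norm_num at hy
        refine fin 4 t4 h4 (-y) hy x hxy ⟨by positivity, ?_, ?_⟩
        · ring
        · field_simp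
  · rcases le_total |x| 1 with hx | hx
    · obtain ⟨x1, x2⟩ := abs_le.1 hx
      obtain ⟨y1, y2⟩ := abs_le.1 (hxy.trans hx)
      exact chk2_sound hs he t0 _ _ _ _ h0 (p := x) (v := y) ⟨rfl, rfl⟩
        (by push_cast; nlinarith) (by nlinarith) (by push_cast; nlinarith) (by nlinarith)
    · rcases abs_cases x with ⟨hx', _⟩ | ⟨hx', _⟩
      · rw [hx'] at hx hxy
        refine fin 1 t1 h1 x hx y hxy ⟨by positivity, ?_, ?_⟩
        · field_simp
        · ring
      · rw [hx'] at hx hxy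
        have hx0 : x ≠ 0 := by intro h0; rw [h0] at hx; norm_num at hx
        refine fin 3 t3 h3 (-x) hx y hxy ⟨by positivity, ?_, ?_⟩
        · field_simp
        · ring

end Pool.EK71
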