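import Pool.Agent.Helper71.EKC.Rf
import Pool.Agent.Helper71.EKC.Gn
import Pool.Agent.Helper71.EKC.Tr2

/-!
Certificates given by integer lists: the potentials, their derivatives and bounds, and the
polynomials of the two conditions.
-/

set_option autoImplicit false

open Complex

namespace Pool.Agent.Helper71.EKC

open Pool.EK71 Pool.Agent.Helper52.EK Pool.Agent.Helper2.EK Pool.Agent.Helper71.EK

/-- certificate data; all potentials are `|X-1|² N/(K D^k)`, `D = 1 + a|X|²`; `k2 = kk/K` -/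
structure CD where
  a : ℕ
  k : ℕ
  K : ℕ
  kk : ℤ
  U : BP
  V : BP
  Z : BP
  W : BP
  T : BP
  S : BP

/-! ### basic lists -/

def xL : BP := [[], [1]]
def yL : BP := [[0, 1]]
def fL : BP := [[-1], [1]]
def r2L : BP := [[0, 0, 1], [], [1]]
def f2L : BP := [[1, 0, 1], [-2], [1]]
def cL (n : ℤ) : BP := [[n]]
def DL (a : ℕ) : BP := [[1, 0, Int.ofNat a], [], [Int.ofNat a]]
def sb2 (P Q : BP) : BP := ad2 P (sm2 (-1) Q)
def pw2 (P : BP) : ℕ → BP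
  | 0 => [[1]]
  | n + 1 => mu2 P (pw2 P n)

section ev
variable (x y : ℝ)
lemma e_x : ev2 x y xL = x := by simp [ev2, ev1, xL]
lemma e_y : ev2 x y yL = y := by simp [ev2, ev1, yL]
lemma e_f : ev2 x y fL = x - 1 := by simp [ev2, ev1, fL]; ring
lemma e_r2 : ev2 x y r2L = x ^ 2 + y ^ 2 := by simp [ev2, ev1, r2L]; ring
lemma e_f2 : ev2 x y f2L = (x - 1) ^ 2 + y ^ 2 := by simp [ev2, ev1, f2L]; ring
lemma e_c (n : ℤ) : ev2 x y (cL n) = n := by simp [ev2, ev1, cL]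
lemma e_D (a : ℕ) : ev2 x y (DL a) = 1 + a * (x ^ 2 + y ^ 2) := by
  simp [ev2, ev1, DL]; ring
lemma e_sb (P Q : BP) : ev2 x y (sb2 P Q) = ev2 x y P - ev2 x y Q := by
  rw [sb2, ev2_ad, ev2_sm]; push_cast; ring
lemma e_pw (P : BP) (n : ℕ) : ev2 x y (pw2 P n) = ev2 x y P ^ n := by
  induction n with
  | zero => simp [pw2, ev2, ev1]
  | succ n ih => rw [pw2, ev2_mu, ih]; ring
end ev

/-! ### rules for the formal derivatives -/

lemma c1_unique {A Ax Ay Bx By : ℂ → ℝ} (h : C1f A Ax Ay) (h' : C1f A Bx By) (X : ℂ) :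
    Ax X = Bx X ∧ Ay X = By X := by
  have e := (h.hd X).unique (h'.hd X)
  have e1 := DFunLike.congr_fun e 1
  have e2 := DFunLike.congr_fun e I
  simp at e1 e2
  exact ⟨e1, e2⟩

lemma d_mu (x y : ℝ) (P Q : BP) :
    ev2 x y (dX (mu2 P Q)) = ev2 x y (dX P) * ev2 x y Q + ev2 x y P * ev2 x y (dX Q) ∧
    ev2 x y (dY (mu2 P Q)) = ev2 x y (dY P) * ev2 x y Q + ev2 x y P * ev2 x y (dY Q) := by
  have h := c1_unique (c1_congr (c1_mul (c1_ev2 P) (c1_ev2 Q))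
    (W' := fun X => ev2 X.re X.im (mu2 P Q)) (fun X => by rw [ev2_mu]) (fun _ => rfl)
    (fun _ => rfl)) (c1_ev2 (mu2 P Q)) ⟨x, y⟩
  exact ⟨h.1.symm, h.2.symm⟩

lemma d_sb (x y : ℝ) (P Q : BP) :
    ev2 x y (dX (sb2 P Q)) = ev2 x y (dX P) - ev2 x y (dX Q) ∧
    ev2 x y (dY (sb2 P Q)) = ev2 x y (dY P) - ev2 x y (dY Q) := by
  have h := c1_unique (c1_congr (c1_sub (c1_ev2 P) (c1_ev2 Q))
    (W' := fun X => ev2 X.re X.im (sb2 P Q)) (fun X => by rw [e_sb]) (fun _ => rfl)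
    (fun _ => rfl)) (c1_ev2 (sb2 P Q)) ⟨x, y⟩
  exact ⟨h.1.symm, h.2.symm⟩

lemma d_sm (x y : ℝ) (c : ℤ) (P : BP) :
    ev2 x y (dX (sm2 c P)) = c * ev2 x y (dX P) ∧
    ev2 x y (dY (sm2 c P)) = c * ev2 x y (dY P) := by
  have h := c1_unique (c1_congr (c1_mul (c1_const (c : ℝ)) (c1_ev2 P))
    (W' := fun X => ev2 X.re X.im (sm2 c P)) (fun X => by rw [ev2_sm])
    (Wx' := fun X => c * ev2 X.re X.im (dX P)) (Wy' := fun X => c * ev2 X.re X.im (dY P))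
    (fun _ => by ring) (fun _ => by ring)) (c1_ev2 (sm2 c P)) ⟨x, y⟩
  exact ⟨h.1.symm, h.2.symm⟩

lemma dy1_sm (c : ℤ) (n : ℕ) (p : List ℤ) : dy1 n (sm1 c p) = sm1 c (dy1 n p) := by
  induction p generalizing n with
  | nil => rfl
  | cons a p ih =>
    simp only [sm1, dy1, ih]
    congr 1
    show (Int.ofNat n) * (c * a) = c * ((Int.ofNat n) * a)
    ring

lemma dyr_sm (c : ℤ) (p : List ℤ) : dyr (sm1 c p) = sm1 c (dyr p) := by
  cases p with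
  | nil => rfl
  | cons a p => simp only [sm1, dyr, dy1_sm]

lemma dY_dx1 (n : ℕ) (P : BP) : dY (dx1 n P) = dx1 n (dY P) := by
  induction P generalizing n with
  | nil => rfl
  | cons r P ih => simp only [dx1, dY, dyr_sm, ih]

lemma dY_dX (P : BP) : dY (dX P) = dX (dY P) := by
  cases P with
  | nil => rfl
  | cons r P => simp only [dX, dY, dY_dx1]

/-! ### calculus with `D = 1 + a r²` -/

noncomputable def Da (a : ℕ) (x y : ℝ) : ℝ := 1 + a * (x ^ 2 + y ^ 2)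

lemma Da_pos (a : ℕ) (x y : ℝ) : 0 < Da a x y := by unfold Da; positivity

theorem c1_Da (a : ℕ) : C1f (fun X => Da a X.re X.im) (fun X => 2 * a * X.re)
    (fun X => 2 * a * X.im) := by
  refine c1_congr (c1_ev2 (DL a)) (fun X => ?_) (fun X => ?_) (fun X => ?_)
  · rw [e_D, Da]
  · simp [DL, dX, dx1, sm1, ev2, ev1]; ring
  · simp [DL, dY, dyr, dy1, ev2, ev1]; ring

/-- `A / D^k` -/
theorem c1_divA (a : ℕ) {A Ax Ay : ℂ → ℝ} (hA : C1f A Ax Ay) (k : ℕ) :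
    C1f (fun X => A X / Da a X.re X.im ^ k)
      (fun X => (Ax X * Da a X.re X.im - 2 * k * a * X.re * A X)
        / (Da a X.re X.im ^ k * Da a X.re X.im))
      (fun X => (Ay X * Da a X.re X.im - 2 * k * a * X.im * A X)
        / (Da a X.re X.im ^ k * Da a X.re X.im)) := by
  induction k with
  | zero =>
    refine c1_congr hA ?_ ?_ ?_ <;> intro X
    · simp
    · have := (Da_pos a X.re X.im).ne'
      field_simp
      simp
    · have := (Da_pos a X.re X.im).ne'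
      field_simp
      simp
  | succ k ih =>
    refine c1_congr (c1_mul ih (c1_inv (c1_Da a) fun X => (Da_pos a X.re X.im).ne')) ?_ ?_ ?_ <;>
      intro X <;> have := (Da_pos a X.re X.im).ne' <;> push_cast <;> field_simp <;> ring

namespace CD

variable (C : CD)

/-- `2 k a` -/
def kb : ℤ := Int.mul 2 (Int.mul (Int.ofNat C.k) (Int.ofNat C.a))

/-- numerators of the derivatives of `P / D^j` -/
def qx (j : ℕ) (P : BP) : BP :=
  sb2 (mu2 (DL C.a) (dX P)) (sm2 (Int.mul 2 (Int.mul (Int.ofNat j) (Int.ofNat C.a))) (mu2 xL P))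
def qy (j : ℕ) (P : BP) : BP :=
  sb2 (mu2 (DL C.a) (dY P)) (sm2 (Int.mul 2 (Int.mul (Int.ofNat j) (Int.ofNat C.a))) (mu2 yL P))

def hL : BP := mu2 f2L C.U
def N4L : BP := ad2 (C.qx (C.k + 1) (C.qx C.k C.hL)) (C.qy (C.k + 1) (C.qy C.k C.hL))

noncomputable def DD (x y : ℝ) : ℝ := Da C.a x y

lemma e_qx (j : ℕ) (P : BP) (x y : ℝ) : ev2 x y (C.qx j P) =
    ev2 x y (dX P) * Da C.a x y - 2 * j * C.a * x * ev2 x y P := by
  rw [qx, e_sb, ev2_mu, ev2_sm, ev2_mu, e_D, e_x, imul_cast, imul_cast, Da]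
  have h1 : ((Int.ofNat j : ℤ) : ℝ) = j := by simp
  have h2 : ((Int.ofNat C.a : ℤ) : ℝ) = C.a := by simp
  rw [h1, h2]; push_cast; ring

lemma e_qy (j : ℕ) (P : BP) (x y : ℝ) : ev2 x y (C.qy j P) =
    ev2 x y (dY P) * Da C.a x y - 2 * j * C.a * y * ev2 x y P := by
  rw [qy, e_sb, ev2_mu, ev2_sm, ev2_mu, e_D, e_y, imul_cast, imul_cast, Da]
  have h1 : ((Int.ofNat j : ℤ) : ℝ) = j := by simp
  have h2 : ((Int.ofNat C.a : ℤ) : ℝ) = C.a := by simp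
  rw [h1, h2]; push_cast; ring

theorem c1_q (j : ℕ) (P : BP) :
    C1f (fun X : ℂ => ev2 X.re X.im P / C.K / Da C.a X.re X.im ^ j)
      (fun X => ev2 X.re X.im (C.qx j P) / C.K / Da C.a X.re X.im ^ (j + 1))
      (fun X => ev2 X.re X.im (C.qy j P) / C.K / Da C.a X.re X.im ^ (j + 1)) := by
  have h1 : C1f (fun X : ℂ => ev2 X.re X.im P / C.K) (fun X => ev2 X.re X.im (dX P) / C.K)
      (fun X => ev2 X.re X.im (dY P) / C.K) := by
    refine c1_congr (c1_mul (c1_const ((C.K : ℝ)⁻¹)) (c1_ev2 P)) ?_ ?_ ?_ <;> intro X <;>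
      simp [div_eq_mul_inv] <;> ring
  refine c1_congr (c1_divA C.a h1 j) (fun X => rfl) (fun X => ?_) (fun X => ?_)
  · rw [e_qx, pow_succ]; ring
  · rw [e_qy, pow_succ]; ring

/-! ### the potentials -/

noncomputable def fU (X : ℂ) : ℝ := ev2 X.re X.im C.hL / C.K / Da C.a X.re X.im ^ C.k
noncomputable def fUx (X : ℂ) : ℝ :=
  ev2 X.re X.im (C.qx C.k C.hL) / C.K / Da C.a X.re X.im ^ (C.k + 1)
noncomputable def fUy (X : ℂ) : ℝ :=
  ev2 X.re X.im (C.qy C.k C.hL) / C.K / Da C.a X.re X.im ^ (C.k + 1)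
noncomputable def fLap (X : ℂ) : ℝ :=
  ev2 X.re X.im C.N4L / C.K / Da C.a X.re X.im ^ (C.k + 2)

lemma e_dD (x y : ℝ) : ev2 x y (dX (DL C.a)) = 2 * C.a * x ∧ ev2 x y (dY (DL C.a)) = 2 * C.a * y := by
  constructor
  · simp [DL, dX, dx1, sm1, ev2, ev1]; ring
  · simp [DL, dY, dyr, dy1, ev2, ev1]; ring

lemma e_dxy (x y : ℝ) : ev2 x y (dX xL) = 1 ∧ ev2 x y (dY xL) = 0 ∧ ev2 x y (dX yL) = 0 ∧
    ev2 x y (dY yL) = 1 := by
  refine ⟨?_, ?_, ?_, ?_⟩ <;> simp [xL, yL, dX, dY, dx1, dyr, dy1, sm1, ev2, ev1]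

lemma q_comm (i j : ℕ) (P : BP) (x y : ℝ) :
    ev2 x y (C.qy j (C.qx i P)) - ev2 x y (C.qx j (C.qy i P)) =
      (2 * i * C.a - 2 * j * C.a + 2 * C.a)
        * (y * ev2 x y (dX P) - x * ev2 x y (dY P)) * Da C.a x y := by
  rw [e_qy, e_qx C i P, e_qx C j (C.qy i P), e_qy C i P]
  have h1 : ev2 x y (dY (C.qx i P)) = (2 * C.a * y) * ev2 x y (dX P)
      + Da C.a x y * ev2 x y (dX (dY P)) - 2 * i * C.a * x * ev2 x y (dY P) := by
    rw [qx, (d_sb x y _ _).2, (d_mu x y _ _).2, (d_sm x y _ _).2, (d_mu x y _ _).2, (C.e_dD x y).2,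
      (e_dxy x y).2.1, e_D, e_x, dY_dX, Da, imul_cast, imul_cast]
    have h1 : ((Int.ofNat i : ℤ) : ℝ) = i := by simp
    have h2 : ((Int.ofNat C.a : ℤ) : ℝ) = C.a := by simp
    rw [h1, h2]; push_cast; ring
  have h2 : ev2 x y (dX (C.qy i P)) = (2 * C.a * x) * ev2 x y (dY P)
      + Da C.a x y * ev2 x y (dX (dY P)) - 2 * i * C.a * y * ev2 x y (dX P) := by
    rw [qy, (d_sb x y _ _).1, (d_mu x y _ _).1, (d_sm x y _ _).1, (d_mu x y _ _).1, (C.e_dD x y).1,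
      (e_dxy x y).2.2.1, e_D, e_y, Da, imul_cast, imul_cast]
    have h1 : ((Int.ofNat i : ℤ) : ℝ) = i := by simp
    have h2 : ((Int.ofNat C.a : ℤ) : ℝ) = C.a := by simp
    rw [h1, h2]; push_cast; ring
  rw [h1, h2]
  ring

theorem c2_U : C2f C.fU C.fUx C.fUy C.fLap := by
  refine ⟨C.c1_q C.k C.hL, _, _, _, C.c1_q (C.k + 1) (C.qx C.k C.hL),
    c1_congr (C.c1_q (C.k + 1) (C.qy C.k C.hL)) (fun _ => rfl)
      (W' := C.fUy) (Wx' := fun X => ev2 X.re X.im (C.qy (C.k + 1) (C.qx C.k C.hL)) / C.K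
        / Da C.a X.re X.im ^ (C.k + 1 + 1)) (fun X => ?_) (fun _ => rfl), fun X => ?_⟩
  · show ev2 X.re X.im (C.qy (C.k + 1) (C.qx C.k C.hL)) / C.K / Da C.a X.re X.im ^ (C.k + 1 + 1) =
      ev2 X.re X.im (C.qx (C.k + 1) (C.qy C.k C.hL)) / C.K / Da C.a X.re X.im ^ (C.k + 1 + 1)
    have h := C.q_comm C.k (C.k + 1) C.hL X.re X.im
    have h0 : (2 * (C.k : ℝ) * C.a - 2 * ((C.k + 1 : ℕ) : ℝ) * C.a + 2 * C.a) = 0 := by
      push_cast; ring
    rw [h0, zero_mul, zero_mul] at h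
    rw [sub_eq_zero.1 h]
  · rw [fLap, N4L, ev2_ad]; ring

/-- values at a point -/
noncomputable def pt (x y : ℝ) : Pt where
  x := x
  y := y
  D := Da C.a x y
  E := Da C.a x y ^ C.k
  kb := 2 * C.k * C.a
  k2 := C.kk / C.K
  n4 := ev2 x y C.N4L / C.K
  nu := ev2 x y C.U / C.K
  nv := ev2 x y C.V / C.K
  nvx := ev2 x y (dX C.V) / C.K
  nvy := ev2 x y (dY C.V) / C.K
  nz := ev2 x y C.Z / C.K
  nzx := ev2 x y (dX C.Z) / C.K
  nzy := ev2 x y (dY C.Z) / C.K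
  nw := ev2 x y C.W / C.K
  nwx := ev2 x y (dX C.W) / C.K
  nwy := ev2 x y (dY C.W) / C.K
  nt := ev2 x y C.T / C.K
  ntx := ev2 x y (dX C.T) / C.K
  nty := ev2 x y (dY C.T) / C.K
  sg := ev2 x y C.S / C.K

end CD

end Pool.Agent.Helper71.EKC
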