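import Pool.Agent.Helper71.EKC.V1
import Pool.Agent.Helper71.EKC.V2
import Pool.Agent.Helper71.EKC.V3
import Pool.Agent.Helper68.EKC.Assemble

/-!
The hexagon with the vertices `1 ± i/8`, `4/5 ± i/2`, `± i/2` contains the circle of the
directions: the moment bound for all complex `t` with `|t| - Re t ≥ 9`.
-/

set_option autoImplicit false

open Complex MeasureTheory Metric Set
open scoped Real ComplexConjugate

namespace Pool.Agent.Helper71.EKC

open Pool.EK71 Pool.Agent.Helper52.EK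

/-- the common weight -/
noncomputable def sg0 (X : ℂ) : ℝ :=
  ((X.re - 1) ^ 2 + X.im ^ 2) * (19 / 10 * (1 + 5 * (X.re ^ 2 + X.im ^ 2))) /
    Da 5 X.re X.im ^ 2

lemma sg0_conj (X : ℂ) : sg0 (conj X) = sg0 X := by
  unfold sg0 Da
  simp

lemma sgf_1 : sgf V1.C.a V1.C.k V1.C.K V1.C.S = sg0 := by
  funext X
  unfold sgf sg0 V1.C
  congr 2
  simp [ev2, ev1]
  ring

lemma sgf_2 : sgf V2.C.a V2.C.k V2.C.K V2.C.S = sg0 := by
  funext X
  unfold sgf sg0 V2.C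
  congr 2
  simp [ev2, ev1]
  ring

lemma sgf_3 : sgf V3.C.a V3.C.k V3.C.K V3.C.S = sg0 := by
  funext X
  unfold sgf sg0 V3.C
  congr 2
  simp [ev2, ev1]
  ring

theorem vs_1 : VS sg0 1 (1 / 8) (179 / 20) := by
  have h := V1.vs0
  rw [sgf_1] at h
  norm_num [V1.C] at h
  exact h

theorem vs_2 : VS sg0 (4 / 5) (1 / 2) (179 / 20) := by
  have h := V2.vs0
  rw [sgf_2] at h
  norm_num [V2.C] at h
  exact h

theorem vs_3 : VS sg0 0 (1 / 2) (179 / 20) := by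
  have h := V3.vs0
  rw [sgf_3] at h
  norm_num [V3.C] at h
  exact h

/-- upper half of the circle -/
theorem cover_up {x y : ℝ} (h : (2 * x - 1) ^ 2 + (2 * y) ^ 2 = 1) (hy : 0 ≤ y) :
    VS sg0 x y (179 / 20) := by
  have hx0 : 0 ≤ x := by nlinarith
  have hx1 : x ≤ 1 := by nlinarith
  have hy1 : y ≤ 1 / 2 := by nlinarith
  have ht : 15 * x + 8 * y ≤ 16 := by nlinarith [sq_nonneg (8 * (2 * x - 1) - 15 * (2 * y))]
  have v1 := vs_1
  have v1' := vs_1.refl sg0_conj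
  have v2 := vs_2
  have v3 := vs_3
  have v3' := vs_3.refl sg0_conj
  rcases le_total (8 * y) (5 * x - 4) with h1 | h1
  · have := v3'.tri v1' v1 (l₁ := 1 - x) (l₂ := (5 * x - 8 * y - 4) / 2)
      (l₃ := (8 * y + 4 - 3 * x) / 2) (by linarith) (by linarith) (by linarith) (by ring)
    convert this using 1 <;> ring
  · rcases le_total (4 * y) (5 * x - 2) with h2 | h2
    · have := v3'.tri v1 v2 (l₁ := (16 - 15 * x - 8 * y) / 20) (l₂ := 2 * x - 8 / 5 * y - 4 / 5)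
        (l₃ := 2 * y + 1 - 5 / 4 * x) (by linarith) (by linarith) (by linarith) (by ring)
      convert this using 1 <;> ring
    · have := v3'.tri v2 v3 (l₁ := 1 / 2 - y) (l₂ := 5 / 4 * x)
        (l₃ := 1 / 2 + y - 5 / 4 * x) (by linarith) (by linarith) (by linarith) (by ring)
      convert this using 1 <;> ring

/-- the whole circle -/
theorem cover {x y : ℝ} (h : (2 * x - 1) ^ 2 + (2 * y) ^ 2 = 1) : VS sg0 x y (179 / 20) := by
  rcases le_total 0 y with hy | hy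
  · exact cover_up h hy
  · have e : (2 * -y) ^ 2 = (2 * y) ^ 2 := by ring
    have := (cover_up (x := x) (y := -y) (by rw [e]; exact h) (by linarith)).refl sg0_conj
    rwa [neg_neg] at this

/-- from a certificate to the moment bound -/
theorem moment_of_VS {σ : ℂ → ℝ} {t : ℂ} {k : ℝ} (ht : 1 ≤ ‖t‖) (h0 : 0 ≤ k)
    (hlt : k < ‖t‖ - t.re) (h : VS σ ((‖t‖ - t.re) / (2 * ‖t‖)) (t.im / (2 * ‖t‖)) k) :
    ∃ C : ℝ, ∀ ψ h : ℂ → ℂ, DifferentiableOn ℂ ψ {z : ℂ | 1 < ‖z‖} →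
      InjOn ψ {z : ℂ | 1 < ‖z‖} →
      (∃ b : ℂ, Filter.Tendsto (fun z => ψ z - z) (Bornology.cobounded ℂ) (nhds b)) →
      DifferentiableOn ℂ h {z : ℂ | 1 < ‖z‖} →
      (∀ z : ℂ, 1 < ‖z‖ → Complex.exp (h z) = deriv ψ z) →
      Filter.Tendsto h (Bornology.cobounded ℂ) (nhds 0) →
      ∀ R : ℝ, 1 < R →
      (2 * π)⁻¹ * (∫ θ in (0:ℝ)..(2 * π), ‖Complex.exp (t * h (R * Complex.exp (θ * I)))‖) ≤
        C * (R ^ 2 / (R ^ 2 - 1)) ^ (‖t‖ - 1) := by
  have hn0 : 0 < ‖t‖ := by linarith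
  obtain ⟨u, hu⟩ : ∃ u : ℂ, u = -(conj t / ‖t‖) := ⟨_, rfl⟩
  have hu1 : ‖u‖ = 1 := by
    rw [hu, norm_neg, norm_div, RCLike.norm_conj, Complex.norm_real, norm_norm, div_self hn0.ne']
  have hre : ((1 + u) / 2).re = (‖t‖ - t.re) / (2 * ‖t‖) := by
    have : u.re = -(t.re / ‖t‖) := by
      rw [hu, Complex.neg_re, Complex.div_ofReal_re, Complex.conj_re]
    have h2 : ((1 + u) / 2).re = (1 + u.re) / 2 := by simp
    rw [h2, this]
    field_simp
    ring
  have him : ((1 + u) / 2).im = t.im / (2 * ‖t‖) := by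
    have : u.im = t.im / ‖t‖ := by
      rw [hu, Complex.neg_im, Complex.div_ofReal_im, Complex.conj_im]
      ring
    have h2 : ((1 + u) / 2).im = u.im / 2 := by simp
    rw [h2, this]
    field_simp
  have h1u : 1 + u ≠ 0 := by
    intro h1
    rw [h1] at hre
    have : 0 < (‖t‖ - t.re) / (2 * ‖t‖) := div_pos (by linarith) (by linarith)
    rw [← hre] at this
    simp at this
  rw [← hre, ← him] at h
  have hS := h.strip hu1 h1u h0
  rw [hu] at hS
  exact Pool.Agent.Helper68.EKC.sigma_of_strip_t ht h0 hS hlt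

/-- the moment bound outside the parabola `|t| - Re t < 9` -/
theorem moments_parabola {t : ℂ} (ht : 9 ≤ ‖t‖ - t.re) :
    ∃ C : ℝ, ∀ ψ h : ℂ → ℂ, DifferentiableOn ℂ ψ {z : ℂ | 1 < ‖z‖} →
      InjOn ψ {z : ℂ | 1 < ‖z‖} →
      (∃ b : ℂ, Filter.Tendsto (fun z => ψ z - z) (Bornology.cobounded ℂ) (nhds b)) →
      DifferentiableOn ℂ h {z : ℂ | 1 < ‖z‖} →
      (∀ z : ℂ, 1 < ‖z‖ → Complex.exp (h z) = deriv ψ z) →
      Filter.Tendsto h (Bornology.cobounded ℂ) (nhds 0) →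
      ∀ R : ℝ, 1 < R →
      (2 * π)⁻¹ * (∫ θ in (0:ℝ)..(2 * π), ‖Complex.exp (t * h (R * Complex.exp (θ * I)))‖) ≤
        C * (R ^ 2 / (R ^ 2 - 1)) ^ (‖t‖ - 1) := by
  have h1 : |t.re| ≤ ‖t‖ := Complex.abs_re_le_norm t
  have h2 := neg_abs_le t.re
  have hn : (9 : ℝ) / 2 ≤ ‖t‖ := by linarith
  have hn0 : 0 < ‖t‖ := by linarith
  refine moment_of_VS (σ := sg0) (k := 179 / 20) (by linarith) (by norm_num) (by linarith)
    (cover ?_)
  have h3 : ‖t‖ ^ 2 = t.re ^ 2 + t.im ^ 2 := by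
    rw [← Complex.normSq_eq_norm_sq, Complex.normSq_apply]; ring
  have e1 : 2 * ((‖t‖ - t.re) / (2 * ‖t‖)) - 1 = -(t.re / ‖t‖) := by
    field_simp
    ring
  have e2 : 2 * (t.im / (2 * ‖t‖)) = t.im / ‖t‖ := by field_simp
  rw [e1, e2, neg_sq, div_pow, div_pow, ← add_div, ← h3]
  exact div_self (by positivity)

end Pool.Agent.Helper71.EKC

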