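import Pool.Agent.Helper71.EKC.Cc

/-!
From the kernel checks of one certificate to the pointwise inequality.
-/

set_option autoImplicit false

open Complex

namespace Pool.EK71

def eqI : ℤ → ℤ → Bool
  | Int.ofNat a, Int.ofNat b => Nat.beq a b
  | Int.negSucc a, Int.negSucc b => Nat.beq a b
  | _, _ => false

lemma eqI_sound {a b : ℤ} (h : eqI a b = true) : a = b := by
  match a, b, h with
  | Int.ofNat a, Int.ofNat b, h => exact congrArg Int.ofNat (Nat.eq_of_beq_eq_true h)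
  | Int.negSucc a, Int.negSucc b, h => exact congrArg Int.negSucc (Nat.eq_of_beq_eq_true h)
  | Int.ofNat a, Int.negSucc b, h => exact absurd h (by simp [eqI])
  | Int.negSucc a, Int.ofNat b, h => exact absurd h (by simp [eqI])

def eq1 : List ℤ → List ℤ → Bool
  | [], [] => true
  | a :: p, b :: q => eqI a b && eq1 p q
  | _, _ => false

lemma eq1_sound {p q : List ℤ} (h : eq1 p q = true) : p = q := by
  induction p generalizing q with
  | nil => cases q with
    | nil => rfl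
    | cons b q => simp [eq1] at h
  | cons a p ih => cases q with
    | nil => simp [eq1] at h
    | cons b q =>
      simp only [eq1, Bool.and_eq_true] at h
      rw [eqI_sound h.1, ih h.2]

def eq2 : BP → BP → Bool
  | [], [] => true
  | a :: p, b :: q => eq1 a b && eq2 p q
  | _, _ => false

lemma eq2_sound {p q : BP} (h : eq2 p q = true) : p = q := by
  induction p generalizing q with
  | nil => cases q with
    | nil => rfl
    | cons b q => simp [eq2] at h
  | cons a p ih => cases q with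
    | nil => simp [eq2] at h
    | cons b q =>
      simp only [eq2, Bool.and_eq_true] at h
      rw [eq1_sound h.1, ih h.2]

/-- the literal list `lit` is the triangular form of `P` -/
def rp (N : ℕ) (P lit : BP) : Bool := fits (N + 1) P && eq2 (toTri (N + 1) P) lit

lemma rp_sound {N : ℕ} {P lit : BP} (h : rp N P lit = true) (x y : ℝ) :
    ev2 x y lit = ev2 x y P := by
  simp only [rp, Bool.and_eq_true] at h
  rw [← eq2_sound h.2, toTri_ev x y (N + 1) P h.1]

/-- five trees with common denominator -/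
structure Cov where
  e : ℤ
  t0 : Tree
  t1 : Tree
  t2 : Tree
  t3 : Tree
  t4 : Tree

def Cov.ok (T : Cov) (D : Dat) : Bool :=
  D.shape && ilt 0 T.e &&
  chk2 D 0 T.e T.t0 (Int.neg T.e) T.e (Int.neg T.e) T.e &&
  chk2 D 1 T.e T.t1 0 T.e (Int.neg T.e) T.e &&
  chk2 D 2 T.e T.t2 0 T.e (Int.neg T.e) T.e &&
  chk2 D 3 T.e T.t3 0 T.e (Int.neg T.e) T.e &&
  chk2 D 4 T.e T.t4 0 T.e (Int.neg T.e) T.e

lemma Cov.sound {T : Cov} {D : Dat} (h : T.ok D = true) (x y : ℝ) : Good D x y := by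
  simp only [Cov.ok, Bool.and_eq_true, ilt, decide_eq_true_eq] at h
  obtain ⟨⟨⟨⟨⟨⟨h0, h1⟩, h2⟩, h3⟩, h4⟩, h5⟩, h6⟩ := h
  exact cover2 h0 T.e h1 T.t0 T.t1 T.t2 T.t3 T.t4 h2 h3 h4 h5 h6 x y

/-- sum of absolute values of the coefficients -/
def nm1 : List ℤ → ℕ
  | [] => 0
  | a :: p => a.natAbs + nm1 p
def nm2 : BP → ℕ
  | [] => 0
  | r :: P => nm1 r + nm2 P

lemma nm1_le {y M : ℝ} (hM : 1 ≤ M) (hy : |y| ≤ M) (n : ℕ) (l : List ℤ)
    (h : fitsRow (n + 1) l = true) : |ev1 y l| ≤ nm1 l * M ^ n := by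
  have hM0 : 0 ≤ M := by linarith
  induction n generalizing l with
  | zero =>
    cases l with
    | nil => simp [ev1, nm1]
    | cons a l =>
      simp only [fitsRow] at h
      rw [ev1, isz_ev y l h, nm1]
      simp only [mul_zero, add_zero, pow_zero, mul_one]
      push_cast
      have : (0 : ℝ) ≤ (nm1 l : ℝ) := by positivity
      have h2 : |(a : ℝ)| = ((a.natAbs : ℕ) : ℝ) := by
        rw [← Int.cast_abs, Int.abs_eq_natAbs]; simp
      rw [h2]; push_cast; linarith
  | succ n ih =>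
    cases l with
    | nil => simp [ev1, nm1]
    | cons a l =>
      simp only [fitsRow] at h
      have h1 := ih l h
      rw [ev1, nm1]
      have h2 : |(a : ℝ)| = ((a.natAbs : ℕ) : ℝ) := by
        rw [← Int.cast_abs, Int.abs_eq_natAbs]; simp
      calc |(a : ℝ) + y * ev1 y l| ≤ |(a : ℝ)| + |y * ev1 y l| := abs_add_le _ _
        _ = ((a.natAbs : ℕ) : ℝ) + |y| * |ev1 y l| := by rw [h2, abs_mul]
        _ ≤ ((a.natAbs : ℕ) : ℝ) * M ^ (n + 1) + M * (nm1 l * M ^ n) := by
          have e1 : (1 : ℝ) ≤ M ^ (n + 1) := one_le_pow₀ hM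
          have e2 : (0 : ℝ) ≤ ((a.natAbs : ℕ) : ℝ) := by positivity
          exact add_le_add (by nlinarith) (mul_le_mul hy h1 (abs_nonneg _) hM0)
        _ = _ := by push_cast; ring

lemma nm2_le {x y M : ℝ} (hM : 1 ≤ M) (hx : |x| ≤ M) (hy : |y| ≤ M) (n : ℕ) (P : BP)
    (h : fits (n + 1) P = true) : |ev2 x y P| ≤ nm2 P * M ^ n := by
  have hM0 : 0 ≤ M := by linarith
  induction n generalizing P with
  | zero =>
    cases P with
    | nil => simp [ev2, nm2]
    | cons r P =>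
      simp only [fits, Bool.and_eq_true] at h
      have h1 := nm1_le hM hy 0 r h.1
      rw [ev2, isz2_ev x y P h.2, nm2]
      simp only [mul_zero, add_zero, pow_zero, mul_one] at h1 ⊢
      push_cast
      have : (0 : ℝ) ≤ (nm2 P : ℝ) := by positivity
      linarith
  | succ n ih =>
    cases P with
    | nil => simp [ev2, nm2]
    | cons r P =>
      simp only [fits, Bool.and_eq_true] at h
      have h1 := nm1_le hM hy (n + 1) r h.1
      have h2 := ih P h.2
      rw [ev2, nm2]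
      calc |ev1 y r + x * ev2 x y P| ≤ |ev1 y r| + |x * ev2 x y P| := abs_add_le _ _
        _ = |ev1 y r| + |x| * |ev2 x y P| := by rw [abs_mul]
        _ ≤ nm1 r * M ^ (n + 1) + M * (nm2 P * M ^ n) :=
          add_le_add h1 (mul_le_mul hx h2 (abs_nonneg _) hM0)
        _ = _ := by push_cast; ring

end Pool.EK71

namespace Pool.Agent.Helper71.EKC

open Pool.EK71 Pool.Agent.Helper52.EK Pool.Agent.Helper2.EK Pool.Agent.Helper71.EK

/-- `F N X = |X-1|² N/(K D^k)` as a function of `X` -/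
noncomputable def pot (C : CD) (N : BP) (X : ℂ) : ℝ :=
  (C.pt X.re X.im).g (ev2 X.re X.im N / C.K)
noncomputable def potx (C : CD) (N : BP) (X : ℂ) : ℝ :=
  (C.pt X.re X.im).gx (ev2 X.re X.im N / C.K) (ev2 X.re X.im (dX N) / C.K)
noncomputable def poty (C : CD) (N : BP) (X : ℂ) : ℝ :=
  (C.pt X.re X.im).gy (ev2 X.re X.im N / C.K) (ev2 X.re X.im (dY N) / C.K)

theorem c1_pot (C : CD) (N : BP) : C1f (pot C N) (potx C N) (poty C N) := by
  have h1 : C1f (fun X : ℂ => ev2 X.re X.im N / C.K) (fun X => ev2 X.re X.im (dX N) / C.K)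
      (fun X => ev2 X.re X.im (dY N) / C.K) := by
    refine c1_congr (c1_mul (c1_const ((C.K : ℝ)⁻¹)) (c1_ev2 N)) ?_ ?_ ?_ <;> intro X <;>
      simp [div_eq_mul_inv] <;> ring
  refine c1_congr (c1_divA C.a (c1_mul c1_F h1) C.k) (fun X => ?_) (fun X => ?_) (fun X => ?_)
  · rfl
  · show ((2 * (X.re - 1) * (ev2 X.re X.im N / C.K) + Fp X.re X.im * (ev2 X.re X.im (dX N) / C.K))
      * Da C.a X.re X.im - (2 * C.k * C.a) * X.re * (Fp X.re X.im * (ev2 X.re X.im N / C.K)))
      / (Da C.a X.re X.im ^ C.k * Da C.a X.re X.im) = _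
    congr 1
  · show ((2 * X.im * (ev2 X.re X.im N / C.K) + Fp X.re X.im * (ev2 X.re X.im (dY N) / C.K))
      * Da C.a X.re X.im - (2 * C.k * C.a) * X.im * (Fp X.re X.im * (ev2 X.re X.im N / C.K)))
      / (Da C.a X.re X.im ^ C.k * Da C.a X.re X.im) = _
    congr 1

lemma fU_eq (C : CD) (X : ℂ) : C.fU X = pot C C.U X := by
  unfold CD.fU pot Pt.g Pt.ff CD.hL
  rw [ev2_mu, e_f2]
  show _ = ((X.re - 1) ^ 2 + X.im ^ 2) * (ev2 X.re X.im C.U / C.K) / Da C.a X.re X.im ^ C.k
  ring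

theorem pot_le (C : CD) (ha : 1 ≤ C.a) {N : BP} (h : fits (2 * C.k + 1) N = true) (X : ℂ) :
    |pot C N X| ≤ (nm2 N : ℝ) * ‖X - 1‖ ^ 2 := by
  set D := Da C.a X.re X.im with hD
  have ha' : (1 : ℝ) ≤ C.a := by exact_mod_cast ha
  have hDr : 1 + (X.re ^ 2 + X.im ^ 2) ≤ D := by
    rw [hD, Da]; nlinarith [sq_nonneg X.re, sq_nonneg X.im]
  have hD1 : 1 ≤ D := by nlinarith [sq_nonneg X.re, sq_nonneg X.im]
  have hM : 1 ≤ Real.sqrt D := by rw [Real.one_le_sqrt]; exact hD1
  have hx : |X.re| ≤ Real.sqrt D := by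
    rw [← Real.sqrt_sq_eq_abs]
    exact Real.sqrt_le_sqrt (by nlinarith [sq_nonneg X.im])
  have hy : |X.im| ≤ Real.sqrt D := by
    rw [← Real.sqrt_sq_eq_abs]
    exact Real.sqrt_le_sqrt (by nlinarith [sq_nonneg X.re])
  have h1 := nm2_le hM hx hy (2 * C.k) N h
  rw [pow_mul, Real.sq_sqrt (by linarith)] at h1
  have hF : 0 ≤ Fp X.re X.im := by unfold Fp; positivity
  rw [← Fp_eq]
  show |Fp X.re X.im * (ev2 X.re X.im N / C.K) / D ^ C.k| ≤ _
  have hDk : 0 < D ^ C.k := by positivity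
  rw [abs_div, abs_mul, abs_of_nonneg hF, abs_of_pos hDk, div_le_iff₀ hDk, abs_div]
  have hK : |ev2 X.re X.im N| / |(C.K : ℝ)| ≤ |ev2 X.re X.im N| := by
    rcases Nat.eq_zero_or_pos C.K with h0 | h0
    · rw [h0]; simp
    · have : (1 : ℝ) ≤ |(C.K : ℝ)| := by
        rw [Nat.abs_cast]; exact_mod_cast h0
      exact div_le_self (abs_nonneg _) this
  calc Fp X.re X.im * (|ev2 X.re X.im N| / |(C.K : ℝ)|)
      ≤ Fp X.re X.im * (nm2 N * D ^ C.k) := mul_le_mul_of_nonneg_left (hK.trans h1) hF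
    _ = _ := by ring

end Pool.Agent.Helper71.EKC
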