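import Pool.Agent.Helper71.EKC.Fin

/-!
The pointwise inequality for a direction `α = (1+u)/2`, `|u| = 1`.
-/

set_option autoImplicit false

open Complex
open scoped ComplexConjugate

namespace Pool.Agent.Helper71.EKC

open Pool.EK71 Pool.Agent.Helper52.EK Pool.Agent.Helper2.EK Pool.Agent.Helper71.EK

lemma Gc_mul (m : ℂ) {s c : ℝ} (h : s ^ 2 + c ^ 2 = 1) :
    ‖Gc m - e0 s c‖ ^ 2 * max 1 (‖m‖ ^ 2) = ‖m - e0 s c‖ ^ 2 := by
  have he := e0_norm h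
  rcases le_or_gt (‖m‖ ^ 2) 1 with h1 | h1
  · rw [Gc, max_eq_left h1]; simp
  · have hm : 0 < ‖m‖ ^ 2 := by linarith
    rw [Gc, max_eq_right h1.le]
    show ‖m / ((‖m‖ ^ 2 : ℝ) : ℂ) - e0 s c‖ ^ 2 * ‖m‖ ^ 2 = ‖m - e0 s c‖ ^ 2
    rw [← Complex.normSq_eq_norm_sq (m / _ - _), ← Complex.normSq_eq_norm_sq (m - _),
      Complex.normSq_sub, Complex.normSq_sub, Complex.normSq_div, Complex.normSq_ofReal,
      Complex.normSq_eq_norm_sq m, Complex.normSq_eq_norm_sq (e0 s c), he]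
    have e1 : (m / ((‖m‖ ^ 2 : ℝ) : ℂ) * (starRingEnd ℂ) (e0 s c)).re =
        (m * (starRingEnd ℂ) (e0 s c)).re / ‖m‖ ^ 2 := by
      rw [div_mul_eq_mul_div, Complex.div_ofReal_re]
    rw [e1]
    have hm0 : ‖m‖ ≠ 0 := by intro h0; rw [h0] at hm; simp at hm
    field_simp
    ring

lemma Gc_le (m : ℂ) {s c E σ : ℝ} (h : s ^ 2 + c ^ 2 = 1) (hσ : 0 ≤ σ) (h1 : σ ≤ E)
    (h2 : ‖m - e0 s c‖ ^ 2 ≤ E + σ * (‖m‖ ^ 2 - 1)) : ‖Gc m - e0 s c‖ ^ 2 ≤ E := by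
  have h3 := Gc_mul m h
  rcases le_or_gt (‖m‖ ^ 2) 1 with h4 | h4
  · rw [max_eq_left h4, mul_one] at h3
    rw [h3]
    have : σ * (‖m‖ ^ 2 - 1) ≤ 0 := mul_nonpos_of_nonneg_of_nonpos hσ (by linarith)
    linarith
  · rw [max_eq_right h4.le] at h3
    have h5 : ‖Gc m - e0 s c‖ ^ 2 * ‖m‖ ^ 2 ≤ E * ‖m‖ ^ 2 := by
      rw [h3]
      have : σ * (‖m‖ ^ 2 - 1) ≤ E * (‖m‖ ^ 2 - 1) :=
        mul_le_mul_of_nonneg_right h1 (by linarith)
      linarith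
    exact le_of_mul_le_mul_right h5 (by linarith)

/-- `m` in the direction `α`, in the variable `X = αΞ` (`X` here is `Ξ`) -/
noncomputable def mal (α X Y : ℂ) (s c : ℝ) : ℂ :=
  (1 + e0 s c) * (1 + (2 * conj α * (X - 1) + (2 * conj α - 1) * (Y / X))) - 1

/-- the functional in the direction `α` -/
noncomputable def Tal (α X Y : ℂ) (s c : ℝ) : ℝ := ‖Gc (mal α X Y s c) - e0 s c‖ ^ 2

lemma mal_sub (α X Y : ℂ) {s c : ℝ} (h : s ^ 2 + c ^ 2 = 1) :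
    ‖mal α X Y s c - e0 s c‖ ^ 2 =
      4 * s ^ 2 * ‖2 * conj α * (X - 1) + (2 * conj α - 1) * (Y / X)‖ ^ 2 := by
  have e : mal α X Y s c - e0 s c =
      (1 + e0 s c) * (2 * conj α * (X - 1) + (2 * conj α - 1) * (Y / X)) := by
    rw [mal]; ring
  have e2 : ‖1 + e0 s c‖ ^ 2 = 4 * s ^ 2 := by
    rw [← Complex.normSq_eq_norm_sq, Complex.normSq_apply, e0]
    simp [pow_two]
    nlinarith [h, sq_nonneg s, sq_nonneg c]
  rw [e, norm_mul, mul_pow, e2]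

lemma m_sq (v : ℂ) {s c : ℝ} (h : s ^ 2 + c ^ 2 = 1) :
    ‖(1 + e0 s c) * (1 + v) - 1‖ ^ 2 - 1 =
      4 * s ^ 2 * (‖v‖ ^ 2 + v.re) + 4 * s * c * v.im := by
  rw [← Complex.normSq_eq_norm_sq, ← Complex.normSq_eq_norm_sq, Complex.normSq_apply,
    Complex.normSq_apply, e0]
  simp [pow_two]
  generalize v.re = a
  generalize v.im = b
  have : c ^ 2 = 1 - s ^ 2 := by nlinarith
  have h4 : c ^ 4 = (1 - s ^ 2) ^ 2 := by rw [← this]; ring
  ring_nf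
  simp only [h4, this]
  ring

/-- the right side of the certificate -/
noncomputable def RHS (C : CD) (X Y : ℂ) (s c : ℝ) : ℝ :=
  (C.kk / C.K : ℝ) * ‖X - 1‖ ^ 2
    + (s ^ 2 * C.fLap X * ‖Y‖ ^ 2 - 2 * (c ^ 2 - s ^ 2) * C.fU X)
    + (s ^ 2 * (potx C C.W X * Y.re + poty C C.W X * Y.im)
      + 2 * s * c * (potx C C.T X * Y.re + poty C C.T X * Y.im))
    + (s ^ 2 * (-potx C C.V X * Y.im + poty C C.V X * Y.re) + 2 * s * c * pot C C.V X)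
    + (2 * s * c * (-potx C C.Z X * Y.im + poty C C.Z X * Y.re)
      + 2 * (c ^ 2 - s ^ 2) * pot C C.Z X)

lemma RHS_eq (C : CD) (X Y : ℂ) (s c : ℝ) :
    RHS C X Y s c = (C.pt X.re X.im).EE Y.re Y.im s c := by
  have hY : ‖Y‖ ^ 2 = Y.re ^ 2 + Y.im ^ 2 := by
    rw [← Complex.normSq_eq_norm_sq, Complex.normSq_apply]; ring
  have hL : C.fLap X = (C.pt X.re X.im).n4 / ((C.pt X.re X.im).E * (C.pt X.re X.im).D ^ 2) := by
    show _ = ev2 X.re X.im C.N4L / C.K / (Da C.a X.re X.im ^ C.k * Da C.a X.re X.im ^ 2)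
    rw [CD.fLap, pow_add]
  rw [RHS, hY, hL, fU_eq, ← Fp_eq]
  rfl

/-- the checks of condition 1 -/
def ok1 (C : CD) (D : Dat) (T : Cov) : Bool :=
  rp D.N C.m11L D.P11 && rp D.N C.m12L D.P12 && rp D.N C.m22L D.P22 && rp D.N' C.q1L D.Q && T.ok D

/-- the checks of condition 2 at the vertex `(p/L, r/L)` -/
def ok2 (C : CD) (p r L : ℤ) (D : Dat) (T : Cov) : Bool :=
  rp D.N (C.M11L p r L) D.P11 && rp D.N (C.M12L p r L) D.P12 && rp D.N (C.M22L p r L) D.P22 &&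
    rp D.N' C.q2L D.Q && T.ok D

/-- nonnegativity of `S` -/
def okS (C : CD) (D : Dat) (T : Cov) : Bool := rp D.N C.S D.P11 && T.ok D

lemma pos_1 {C : CD} (hK : 0 < C.K) {D : Dat} {T : Cov} (h : ok1 C D T = true) (x y : ℝ) :
    0 < (C.pt x y).n4 ∧ 0 ≤ (C.pt x y).m11 ∧ 0 ≤ (C.pt x y).m22 ∧
      (C.pt x y).m12 ^ 2 ≤ (C.pt x y).m11 * (C.pt x y).m22 := by
  simp only [ok1, Bool.and_eq_true] at h
  obtain ⟨⟨⟨⟨h1, h2⟩, h3⟩, h4⟩, h5⟩ := h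
  obtain ⟨g1, g2, g3, g4⟩ := Cov.sound h5 x y
  rw [rp_sound h1, CD.v_m11 x y hK] at g1 g3
  rw [rp_sound h3, CD.v_m22 x y hK] at g2 g3
  rw [rp_sound h2, CD.v_m12 x y hK] at g3
  rw [rp_sound h4, CD.q1L, e_sb, CD.v_n4 x y hK, e_c] at g4
  have hK' : (0 : ℝ) < C.K := by exact_mod_cast hK
  have hK2 : (0 : ℝ) < 4 * C.K ^ 2 := by positivity
  refine ⟨?_, ?_, ?_, ?_⟩
  · have : 0 < (C.K : ℝ) * (C.pt x y).n4 := by push_cast at g4; linarith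
    exact pos_of_mul_pos_right this hK'.le
  · exact nonneg_of_mul_nonneg_right g1 hK2
  · exact nonneg_of_mul_nonneg_right g2 hK2
  · have e1 : (4 * (C.K : ℝ) ^ 2 * (C.pt x y).m12) ^ 2 =
        (4 * C.K ^ 2) ^ 2 * (C.pt x y).m12 ^ 2 := by ring
    have e2 : 4 * (C.K : ℝ) ^ 2 * (C.pt x y).m11 * (4 * C.K ^ 2 * (C.pt x y).m22) =
        (4 * C.K ^ 2) ^ 2 * ((C.pt x y).m11 * (C.pt x y).m22) := by ring
    rw [e1, e2] at g3
    exact le_of_mul_le_mul_left g3 (by positivity)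

lemma pos_2 {C : CD} (hK : 0 < C.K) {p r L : ℤ} (hL : 0 < L) {D : Dat} {T : Cov}
    (h : ok2 C p r L D T = true) (x y : ℝ) :
    0 < (C.pt x y).N2 ∧ 0 ≤ (C.pt x y).M11 (p / L) (r / L) ∧
      0 ≤ (C.pt x y).M22 (p / L) (r / L) ∧
      (C.pt x y).M12 (p / L) (r / L) ^ 2 ≤
        (C.pt x y).M11 (p / L) (r / L) * (C.pt x y).M22 (p / L) (r / L) := by
  simp only [ok2, Bool.and_eq_true] at h
  obtain ⟨⟨⟨⟨h1, h2⟩, h3⟩, h4⟩, h5⟩ := h
  obtain ⟨g1, g2, g3, g4⟩ := Cov.sound h5 x y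
  rw [rp_sound h1, CD.v_M11 x y hK hL] at g1 g3
  rw [rp_sound h3, CD.v_M22 x y hK hL] at g2 g3
  rw [rp_sound h2, CD.v_M12 x y hK hL] at g3
  rw [rp_sound h4, CD.q2L, e_sb, CD.v_N2 x y hK, e_c] at g4
  have hK' : (0 : ℝ) < C.K := by exact_mod_cast hK
  have hL' : (0 : ℝ) < L := by exact_mod_cast hL
  have hK2 : (0 : ℝ) < (C.K * L) ^ 2 := by positivity
  refine ⟨?_, ?_, ?_, ?_⟩
  · have : 0 < (C.K : ℝ) * (C.pt x y).N2 := by push_cast at g4; linarith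
    exact pos_of_mul_pos_right this hK'.le
  · exact nonneg_of_mul_nonneg_right g1 hK2
  · exact nonneg_of_mul_nonneg_right g2 hK2
  · set a := (C.pt x y).M11 (p / L) (r / L)
    set b := (C.pt x y).M12 (p / L) (r / L)
    set d := (C.pt x y).M22 (p / L) (r / L)
    have e1 : (((C.K : ℝ) * L) ^ 2 * b) ^ 2 = ((C.K * L) ^ 2) ^ 2 * b ^ 2 := by ring
    have e2 : ((C.K : ℝ) * L) ^ 2 * a * ((C.K * L) ^ 2 * d) =
        ((C.K * L) ^ 2) ^ 2 * (a * d) := by ring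
    rw [e1, e2] at g3
    exact le_of_mul_le_mul_left g3 (by positivity)

/-- everything about one certificate that the kernel checks -/
structure OK (C : CD) where
  p : Fin 3 → ℤ
  r : Fin 3 → ℤ
  L : ℤ
  D1 : Dat
  C1 : Cov
  DS : Dat
  CS : Cov
  D2 : Fin 3 → Dat
  C2 : Fin 3 → Cov
  hK : Nat.blt 0 C.K = true
  ha : Nat.blt 0 C.a = true
  hL : ilt 0 L = true
  fU : fits (2 * C.k + 1) C.U = true
  fW : fits (2 * C.k + 1) C.W = true
  fT : fits (2 * C.k + 1) C.T = true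
  o1 : ok1 C D1 C1 = true
  oS : okS C DS CS = true
  o2 : ∀ i, ok2 C (p i) (r i) L (D2 i) (C2 i) = true

/-- `α` lies in the triangle of the certificate -/
def OK.In {C : CD} (O : OK C) (α : ℂ) : Prop :=
  ∃ l1 l2 l3 : ℝ, 0 ≤ l1 ∧ 0 ≤ l2 ∧ 0 ≤ l3 ∧ l1 + l2 + l3 = 1 ∧
    α.re = l1 * (O.p 0 / O.L) + l2 * (O.p 1 / O.L) + l3 * (O.p 2 / O.L) ∧
    α.im = l1 * (O.r 0 / O.L) + l2 * (O.r 1 / O.L) + l3 * (O.r 2 / O.L)

theorem OK.main {C : CD} (O : OK C) {α : ℂ} (hα : O.In α) (hc : ‖2 * α - 1‖ = 1)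
    {X : ℂ} (hX : X ≠ 0) (Y : ℂ) {s c : ℝ} (h : s ^ 2 + c ^ 2 = 1) :
    Tal α X Y s c ≤ RHS C X Y s c := by
  have hK : 0 < C.K := by have := O.hK; rwa [Nat.blt_eq] at this
  have hL : 0 < O.L := by have := O.hL; simpa [ilt] using this
  obtain ⟨p1, p2, p3, p4⟩ := pos_1 hK O.o1 X.re X.im
  have hS : 0 ≤ (C.pt X.re X.im).sg := by
    have h1 := O.oS
    simp only [okS, Bool.and_eq_true] at h1
    obtain ⟨g1, _⟩ := Cov.sound h1.2 X.re X.im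
    rw [rp_sound h1.1, CD.v_S X.re X.im hK] at g1
    exact nonneg_of_mul_nonneg_right g1 (by exact_mod_cast hK)
  set P := C.pt X.re X.im with hP
  have hD : 0 < P.D := Da_pos C.a X.re X.im
  have hE : 0 < P.E := pow_pos (Da_pos C.a X.re X.im) _
  have hff : 0 ≤ P.ff := by unfold Pt.ff; positivity
  have hσ : 0 ≤ P.ff * P.sg / P.E := by positivity
  rw [RHS_eq, ← hP]
  refine Gc_le _ h hσ (cond1g P hD hE p1 p2 p3 p4 h Y.re Y.im) ?_
  rw [mal_sub α X Y h]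
  set q := Y / X with hq
  set v := 2 * conj α * (X - 1) + (2 * conj α - 1) * q with hv
  have hm : ‖mal α X Y s c‖ ^ 2 - 1 = 4 * s ^ 2 * (‖v‖ ^ 2 + v.re) + 4 * s * c * v.im := by
    rw [mal, ← hq, ← hv, m_sq v h]
  rw [hm]
  -- the affine function
  have hF : 0 ≤ FF P α.re α.im q.re q.im s c := by
    obtain ⟨l1, l2, l3, i1, i2, i3, i4, i5, i6⟩ := hα
    rw [i5, i6, FF_affine P i4]
    have hv : ∀ i, 0 ≤ FF P (O.p i / O.L) (O.r i / O.L) q.re q.im s c := by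
      intro i
      obtain ⟨r1, r2, r3, r4⟩ := pos_2 hK hL (O.o2 i) X.re X.im
      exact cond2g P hD hE r1 _ _ r2 r3 r4 h q.re q.im
    have := hv 0
    have := hv 1
    have := hv 2
    positivity
  have hcirc : α.re ^ 2 + α.im ^ 2 = α.re := by
    have h1 : ‖2 * α - 1‖ ^ 2 = 1 := by rw [hc]; norm_num
    rw [← Complex.normSq_eq_norm_sq, Complex.normSq_apply] at h1
    simp at h1
    nlinarith
  have e1 : v.re = v1 P α.re α.im q.re q.im := by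
    rw [hv, v1]
    simp
    show _ = 2 * (α.re * (X.re - 1) + α.im * X.im) + (2 * α.re - 1) * q.re + 2 * α.im * q.im
    ring
  have e2 : v.im = v2 P α.re α.im q.re q.im := by
    rw [hv, v2]
    simp
    show _ = 2 * (α.re * X.im - α.im * (X.re - 1)) + (2 * α.re - 1) * q.im - 2 * α.im * q.re
    ring
  have e3 : ‖v‖ ^ 2 = vv P α.re α.im q.re q.im := by
    have : ‖v‖ ^ 2 = v1 P α.re α.im q.re q.im ^ 2 + v2 P α.re α.im q.re q.im ^ 2 := by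
      rw [← Complex.normSq_eq_norm_sq, Complex.normSq_apply, e1, e2]; ring
    rw [this, v1, v2, vv]
    show (2 * (α.re * (X.re - 1) + α.im * X.im) + (2 * α.re - 1) * q.re + 2 * α.im * q.im) ^ 2
      + (2 * (α.re * X.im - α.im * (X.re - 1)) + (2 * α.re - 1) * q.im - 2 * α.im * q.re) ^ 2 =
      4 * α.re * ((X.re - 1) ^ 2 + X.im ^ 2) + 4 * ((α.re * (X.re - 1) - α.im * X.im) * q.re
        + (α.re * X.im + α.im * (X.re - 1)) * q.im) + (q.re ^ 2 + q.im ^ 2)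
    linear_combination (4 * ((X.re - 1) ^ 2 + X.im ^ 2)
      + 8 * ((X.re - 1) * q.re + X.im * q.im) + 4 * (q.re ^ 2 + q.im ^ 2)) * hcirc
  have eY : Y = X * q := by rw [hq]; field_simp
  have e4 : X.re * q.re - X.im * q.im = Y.re := by rw [eY, Complex.mul_re]
  have e5 : X.re * q.im + X.im * q.re = Y.im := by rw [eY, Complex.mul_im]
  rw [e3, e1, e2]
  have hF' : FF P α.re α.im q.re q.im s c = P.EE Y.re Y.im s c
      + P.ff * P.sg / P.E * (4 * s ^ 2 * (vv P α.re α.im q.re q.im + v1 P α.re α.im q.re q.im)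
        + 4 * s * c * v2 P α.re α.im q.re q.im)
      - 4 * s ^ 2 * vv P α.re α.im q.re q.im := by
    rw [FF, ← e4, ← e5]
    rfl
  rw [hF'] at hF
  linarith

end Pool.Agent.Helper71.EKC
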