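import Pool.Agent.Helper71.EK.Tr
import Pool.Agent.Helper2.EK.Fns

/-!
Arithmetic of bivariate integer polynomials given as lists of lists.
-/

namespace Pool.EK71

/-- bivariate polynomials: row `i` is the coefficient of `x^i`, a polynomial in `y` -/
abbrev BP := List (List ℤ)

def ad1 : List ℤ → List ℤ → List ℤ
  | [], q => q
  | a :: p, [] => a :: p
  | a :: p, b :: q => Int.add a b :: ad1 p q

def ad2 : BP → BP → BP
  | [], Q => Q
  | r :: P, [] => r :: P
  | r :: P, s :: Q => ad1 r s :: ad2 P Q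

def sm1 (c : ℤ) : List ℤ → List ℤ
  | [] => []
  | a :: p => Int.mul c a :: sm1 c p

def sm2 (c : ℤ) : BP → BP
  | [] => []
  | r :: P => sm1 c r :: sm2 c P

def mu1 : List ℤ → List ℤ → List ℤ
  | [], _ => []
  | a :: p, q => ad1 (sm1 a q) (0 :: mu1 p q)

/-- product of a polynomial in `y` and a bivariate one -/
def mr (r : List ℤ) : BP → BP
  | [] => []
  | s :: Q => mu1 r s :: mr r Q

def mu2 : BP → BP → BP
  | [], _ => []
  | r :: P, Q => ad2 (mr r Q) ([] :: mu2 P Q)

/-- `d/dy` of a polynomial in `y`, first argument: index -/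
def dy1 : ℕ → List ℤ → List ℤ
  | _, [] => []
  | n, a :: p => Int.mul (Int.ofNat n) a :: dy1 (n + 1) p

def dyr : List ℤ → List ℤ
  | [] => []
  | _ :: p => dy1 1 p

def dY : BP → BP
  | [] => []
  | r :: P => dyr r :: dY P

def dx1 : ℕ → BP → BP
  | _, [] => []
  | n, r :: P => sm1 (Int.ofNat n) r :: dx1 (n + 1) P

def dX : BP → BP
  | [] => []
  | _ :: P => dx1 1 P

lemma ev1_ad (y : ℝ) (p q : List ℤ) : ev1 y (ad1 p q) = ev1 y p + ev1 y q := by
  induction p generalizing q with
  | nil => simp [ad1, ev1]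
  | cons a p ih =>
    cases q with
    | nil => simp [ad1, ev1]
    | cons b q =>
      simp only [ad1, ev1, ih]
      have : ((Int.add a b : ℤ) : ℝ) = a + b := by
        show (((a + b : ℤ)) : ℝ) = _
        push_cast; ring
      rw [this]; ring

lemma ev2_ad (x y : ℝ) (P Q : BP) : ev2 x y (ad2 P Q) = ev2 x y P + ev2 x y Q := by
  induction P generalizing Q with
  | nil => simp [ad2, ev2]
  | cons a p ih =>
    cases Q with
    | nil => simp [ad2, ev2]
    | cons b q => simp only [ad2, ev2, ih, ev1_ad]; ring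

lemma imul_cast (a b : ℤ) : ((Int.mul a b : ℤ) : ℝ) = a * b := by
  show (((a * b : ℤ)) : ℝ) = _
  push_cast; ring

lemma ev1_sm (y : ℝ) (c : ℤ) (p : List ℤ) : ev1 y (sm1 c p) = c * ev1 y p := by
  induction p with
  | nil => simp [sm1, ev1]
  | cons a p ih => simp only [sm1, ev1, ih, imul_cast]; ring

lemma ev2_sm (x y : ℝ) (c : ℤ) (P : BP) : ev2 x y (sm2 c P) = c * ev2 x y P := by
  induction P with
  | nil => simp [sm2, ev2]
  | cons a p ih => simp only [sm2, ev2, ih, ev1_sm]; ring

lemma ev1_mu (y : ℝ) (p q : List ℤ) : ev1 y (mu1 p q) = ev1 y p * ev1 y q := by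
  induction p with
  | nil => simp [mu1, ev1]
  | cons a p ih => simp only [mu1, ev1_ad, ev1_sm, ev1, ih, Int.cast_zero]; ring

lemma ev2_mr (x y : ℝ) (r : List ℤ) (Q : BP) : ev2 x y (mr r Q) = ev1 y r * ev2 x y Q := by
  induction Q with
  | nil => simp [mr, ev2]
  | cons a p ih => simp only [mr, ev2, ih, ev1_mu]; ring

lemma ev2_mu (x y : ℝ) (P Q : BP) : ev2 x y (mu2 P Q) = ev2 x y P * ev2 x y Q := by
  induction P with
  | nil => simp [mu2, ev2]
  | cons a p ih => simp only [mu2, ev2_ad, ev2_mr, ev2, ih, ev1]; ring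

/-! derivatives -/

lemma dy1_ev (n : ℕ) (y : ℝ) (p : List ℤ) :
    ev1 y (dy1 (n + 1) p) = (n + 1) * ev1 y p + y * ev1 y (dyr p) := by
  induction p generalizing n with
  | nil => simp [dy1, dyr, ev1]
  | cons a p ih =>
    have h1 := ih (n + 1)
    have h0 := ih 0
    simp only [dy1, dyr, ev1, imul_cast] at h1 h0 ⊢
    rw [h1, show dy1 1 p = dy1 (0 + 1) p from rfl, h0]
    push_cast
    have : ((Int.ofNat (n + 1) : ℤ) : ℝ) = n + 1 := by
      show (((n + 1 : ℕ) : ℤ) : ℝ) = _
      push_cast; ring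
    rw [this]; ring

lemma dyr_ev (y : ℝ) (a : ℤ) (p : List ℤ) :
    ev1 y (dyr (a :: p)) = ev1 y p + y * ev1 y (dyr p) := by
  have := dy1_ev 0 y p
  simp only [dyr] at this ⊢
  rw [show dy1 1 p = dy1 (0 + 1) p from rfl, this]; push_cast; ring

lemma dx1_ev (n : ℕ) (x y : ℝ) (P : BP) :
    ev2 x y (dx1 (n + 1) P) = (n + 1) * ev2 x y P + x * ev2 x y (dX P) := by
  induction P generalizing n with
  | nil => simp [dx1, dX, ev2]
  | cons a p ih =>
    have h1 := ih (n + 1)
    have h0 := ih 0
    simp only [dx1, dX, ev2, ev1_sm] at h1 h0 ⊢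
    rw [h1, show dx1 1 p = dx1 (0 + 1) p from rfl, h0]
    push_cast
    have : ((Int.ofNat (n + 1) : ℤ) : ℝ) = n + 1 := by
      show (((n + 1 : ℕ) : ℤ) : ℝ) = _
      push_cast; ring
    rw [this]; ring

lemma dX_ev (x y : ℝ) (r : List ℤ) (P : BP) :
    ev2 x y (dX (r :: P)) = ev2 x y P + x * ev2 x y (dX P) := by
  have := dx1_ev 0 x y P
  simp only [dX] at this ⊢
  rw [show dx1 1 P = dx1 (0 + 1) P from rfl, this]; push_cast; ring

open Pool.Agent.Helper52.EK Pool.Agent.Helper2.EK in
lemma c1_ev1 (p : List ℤ) : C1f (fun X : ℂ => ev1 X.im p) (fun _ => 0)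
    (fun X => ev1 X.im (dyr p)) := by
  induction p with
  | nil =>
    refine c1_congr (c1_const 0) (fun X => ?_) (fun X => ?_) (fun X => ?_)
    · simp [ev1]
    · rfl
    · simp [dyr, ev1]
  | cons a p ih =>
    refine c1_congr (c1_add (c1_const (a : ℝ)) (c1_mul c1_im ih)) (fun X => ?_) (fun X => ?_)
      (fun X => ?_)
    · simp only [ev1]
    · ring
    · rw [dyr_ev]; ring

open Pool.Agent.Helper52.EK Pool.Agent.Helper2.EK in
lemma c1_ev2 (P : BP) : C1f (fun X : ℂ => ev2 X.re X.im P) (fun X => ev2 X.re X.im (dX P))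
    (fun X => ev2 X.re X.im (dY P)) := by
  induction P with
  | nil =>
    refine c1_congr (c1_const 0) (fun X => ?_) (fun X => ?_) (fun X => ?_)
    · simp [ev2]
    · simp [dX, ev2]
    · simp [dY, ev2]
  | cons r P ih =>
    refine c1_congr (c1_add (c1_ev1 r) (c1_mul c1_re ih)) (fun X => ?_) (fun X => ?_)
      (fun X => ?_)
    · simp only [ev2]
    · rw [dX_ev]; ring
    · simp only [dY, ev2]; ring

/-! triangular shape -/

def padRow : ℕ → List ℤ → List ℤ
  | 0, _ => []
  | n + 1, [] => 0 :: padRow n []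
  | n + 1, a :: l => a :: padRow n l

def isz : List ℤ → Bool
  | [] => true
  | a :: l => (match a with
    | Int.ofNat n => Nat.beq n 0
    | Int.negSucc _ => false) && isz l

def fitsRow : ℕ → List ℤ → Bool
  | 0, l => isz l
  | _ + 1, [] => true
  | n + 1, _ :: l => fitsRow n l

def toTri : ℕ → BP → BP
  | 0, _ => []
  | _ + 1, [] => []
  | n + 1, r :: P => padRow (n + 1) r :: toTri n P

def isz2 : BP → Bool
  | [] => true
  | r :: P => isz r && isz2 P

def fits : ℕ → BP → Bool
  | 0, P => isz2 P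
  | _ + 1, [] => true
  | n + 1, r :: P => fitsRow (n + 1) r && fits n P

lemma isz_ev (y : ℝ) (l : List ℤ) (h : isz l = true) : ev1 y l = 0 := by
  induction l with
  | nil => rfl
  | cons a l ih =>
    simp only [isz, Bool.and_eq_true] at h
    have ha : a = 0 := by
      cases a with
      | ofNat n =>
        have : n = 0 := Nat.eq_of_beq_eq_true h.1
        rw [this]; rfl
      | negSucc n => simp at h
    simp [ev1, ih h.2, ha]

lemma isz2_ev (x y : ℝ) (P : BP) (h : isz2 P = true) : ev2 x y P = 0 := by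
  induction P with
  | nil => rfl
  | cons r P ih =>
    simp only [isz2, Bool.and_eq_true] at h
    simp [ev2, ih h.2, isz_ev y r h.1]

lemma padRow_len (n : ℕ) (l : List ℤ) : (padRow n l).length = n := by
  induction n generalizing l with
  | zero => rfl
  | succ n ih => cases l <;> simp [padRow, ih]

lemma padRow_nil (y : ℝ) (n : ℕ) : ev1 y (padRow n []) = 0 := by
  induction n with
  | zero => rfl
  | succ n ih => simp [padRow, ev1, ih]

lemma padRow_ev (y : ℝ) (n : ℕ) (l : List ℤ) (h : fitsRow n l = true) :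
    ev1 y (padRow n l) = ev1 y l := by
  induction n generalizing l with
  | zero => simp only [fitsRow] at h; rw [isz_ev y l h]; rfl
  | succ n ih =>
    cases l with
    | nil => rw [padRow_nil]; rfl
    | cons a l => simp only [fitsRow] at h; simp only [padRow, ev1, ih l h]

lemma toTri_shp (n : ℕ) (P : BP) : shp n (toTri n P) = true := by
  induction n generalizing P with
  | zero => rfl
  | succ n ih =>
    cases P with
    | nil => rfl
    | cons r P =>
      simp only [toTri, shp, Bool.and_eq_true]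
      refine ⟨?_, ih P⟩
      rw [padRow_len]
      exact Nat.beq_refl _

lemma toTri_ev (x y : ℝ) (n : ℕ) (P : BP) (h : fits n P = true) :
    ev2 x y (toTri n P) = ev2 x y P := by
  induction n generalizing P with
  | zero => simp only [fits] at h; rw [isz2_ev x y P h]; rfl
  | succ n ih =>
    cases P with
    | nil => rfl
    | cons r P =>
      simp only [fits, Bool.and_eq_true] at h
      simp only [toTri, ev2, padRow_ev y _ r h.1, ih P h.2]

end Pool.EK71
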