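import Pool.Agent.Helper71.EKC.Vx

/-!
From the kernel checks of a certificate to the convex set of directions.
-/

set_option autoImplicit false

open Complex

namespace Pool.Agent.Helper71.EKC

open Pool.EK71 Pool.Agent.Helper52.EK Pool.Agent.Helper2.EK Pool.Agent.Helper71.EK

/-- the weight `σ = |X-1|² S/(K D^k)` -/
noncomputable def sgf (a k K : ℕ) (S : BP) (X : ℂ) : ℝ :=
  ((X.re - 1) ^ 2 + X.im ^ 2) * (ev2 X.re X.im S / K) / Da a X.re X.im ^ k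

/-- the potentials of the data -/
noncomputable def CD.fns (C : CD) : Fns where
  k2 := C.kk / C.K
  U := C.fU
  Ux := C.fUx
  Uy := C.fUy
  L := C.fLap
  V := pot C C.V
  Vx := potx C C.V
  Vy := poty C C.V
  Z := pot C C.Z
  Zx := potx C C.Z
  Zy := poty C C.Z
  W := pot C C.W
  Wx := potx C C.W
  Wy := poty C C.W
  T := pot C C.T
  Tx := potx C C.T
  Ty := poty C C.T

lemma CD.fns_R (C : CD) (X Y : ℂ) (s c : ℝ) : C.fns.R X Y s c = RHS C X Y s c := rfl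

/-- the same data with another constant -/
def CD.wk (C : CD) (n : ℤ) : CD := ⟨C.a, C.k, C.K, n, C.U, C.V, C.Z, C.W, C.T, C.S⟩

def okF (C : CD) : Bool :=
  Nat.blt 0 C.K && Nat.blt 0 C.a && fits (2 * C.k + 1) C.U && fits (2 * C.k + 1) C.W &&
    fits (2 * C.k + 1) C.T

lemma good_of {C : CD} (h : okF C = true) : C.fns.Good := by
  simp only [okF, Bool.and_eq_true, Nat.blt_eq] at h
  obtain ⟨⟨⟨⟨hK, ha⟩, f1⟩, f2⟩, f3⟩ := h
  refine ⟨C.c2_U, c1_pot C C.V, c1_pot C C.Z, c1_pot C C.W, c1_pot C C.T,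
    (nm2 C.U : ℝ) + nm2 C.W + nm2 C.T, fun X => ?_⟩
  have h1 := pot_le C ha f1 X
  have h2 := pot_le C ha f2 X
  have h3 := pot_le C ha f3 X
  have hn := sq_nonneg ‖X - 1‖
  have n1 : (0 : ℝ) ≤ (nm2 C.U : ℝ) * ‖X - 1‖ ^ 2 := by positivity
  have n2 : (0 : ℝ) ≤ (nm2 C.W : ℝ) * ‖X - 1‖ ^ 2 := by positivity
  have n3 : (0 : ℝ) ≤ (nm2 C.T : ℝ) * ‖X - 1‖ ^ 2 := by positivity
  have e : ((nm2 C.U : ℝ) + nm2 C.W + nm2 C.T) * ‖X - 1‖ ^ 2 =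
    nm2 C.U * ‖X - 1‖ ^ 2 + nm2 C.W * ‖X - 1‖ ^ 2 + nm2 C.T * ‖X - 1‖ ^ 2 := by ring
  rw [e]
  refine ⟨?_, ?_, ?_⟩
  · show |C.fU X| ≤ _
    rw [fU_eq]; linarith
  · show |pot C C.W X| ≤ _
    linarith
  · show |pot C C.T X| ≤ _
    linarith

lemma nn_of {C : CD} (hF : okF C = true) {D : Dat} {T : Cov} (h : okS C D T = true) (X : ℂ) :
    0 ≤ sgf C.a C.k C.K C.S X := by
  simp only [okF, Bool.and_eq_true, Nat.blt_eq] at hF
  obtain ⟨⟨⟨⟨hK, ha⟩, f1⟩, f2⟩, f3⟩ := hF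
  have hS : 0 ≤ (C.pt X.re X.im).sg := by
    simp only [okS, Bool.and_eq_true] at h
    obtain ⟨g1, _⟩ := Cov.sound h.2 X.re X.im
    rw [rp_sound h.1, CD.v_S X.re X.im hK] at g1
    exact nonneg_of_mul_nonneg_right g1 (by exact_mod_cast hK)
  have hE : 0 < Da C.a X.re X.im ^ C.k := pow_pos (Da_pos C.a X.re X.im) _
  have hS' : 0 ≤ ev2 X.re X.im C.S / C.K := hS
  unfold sgf
  positivity

lemma v1_of {C : CD} (hF : okF C = true) {D : Dat} {T : Cov} (h : ok1 C D T = true)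
    (X Y : ℂ) (s c : ℝ) (hs : s ^ 2 + c ^ 2 = 1) :
    sgf C.a C.k C.K C.S X ≤ C.fns.R X Y s c := by
  simp only [okF, Bool.and_eq_true, Nat.blt_eq] at hF
  obtain ⟨⟨⟨⟨hK, ha⟩, f1⟩, f2⟩, f3⟩ := hF
  obtain ⟨p1, p2, p3, p4⟩ := pos_1 hK h X.re X.im
  rw [CD.fns_R, RHS_eq]
  exact cond1g (C.pt X.re X.im) (Da_pos C.a X.re X.im) (pow_pos (Da_pos C.a X.re X.im) _)
    p1 p2 p3 p4 hs Y.re Y.im

lemma v2_of {C : CD} (hF : okF C = true) {p r L : ℤ} (hL : ilt 0 L = true) {D : Dat} {T : Cov}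
    (h : ok2 C p r L D T = true) (X q : ℂ) (s c : ℝ) (hs : s ^ 2 + c ^ 2 = 1) :
    0 ≤ C.fns.R X (X * q) s c + QQ (sgf C.a C.k C.K C.S X) (p / L) (r / L) X q s c := by
  simp only [okF, Bool.and_eq_true, Nat.blt_eq] at hF
  obtain ⟨⟨⟨⟨hK, ha⟩, f1⟩, f2⟩, f3⟩ := hF
  have hL' : 0 < L := by simpa [ilt] using hL
  obtain ⟨r1, r2, r3, r4⟩ := pos_2 hK hL' h X.re X.im
  have h2 := cond2g (C.pt X.re X.im) (Da_pos C.a X.re X.im)
    (pow_pos (Da_pos C.a X.re X.im) _) r1 _ _ r2 r3 r4 hs q.re q.im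
  rw [CD.fns_R, RHS_eq, Complex.mul_re, Complex.mul_im]
  unfold FF at h2
  have e : (C.pt X.re X.im).EE (X.re * q.re - X.im * q.im) (X.re * q.im + X.im * q.re) s c
      + QQ (sgf C.a C.k C.K C.S X) (p / L) (r / L) X q s c =
      (C.pt X.re X.im).EE (X.re * q.re - X.im * q.im) (X.re * q.im + X.im * q.re) s c
      + ((C.pt X.re X.im).ff * (C.pt X.re X.im).sg / (C.pt X.re X.im).E
        * (4 * s ^ 2 * (vv (C.pt X.re X.im) (p / L) (r / L) q.re q.im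
          + v1 (C.pt X.re X.im) (p / L) (r / L) q.re q.im)
        + 4 * s * c * v2 (C.pt X.re X.im) (p / L) (r / L) q.re q.im)
      - 4 * s ^ 2 * vv (C.pt X.re X.im) (p / L) (r / L) q.re q.im) := by
    congr 1
  rw [e, ← add_sub_assoc]
  exact h2

theorem vs_of {C : CD} {n p r L : ℤ} {D1 DS D2 : Dat} {C1 CS C2 : Cov} (hn : C.kk ≤ n)
    (hF : okF C = true) (h1 : ok1 C D1 C1 = true) (hS : okS C DS CS = true)
    (hL : ilt 0 L = true) (h2 : ok2 (C.wk n) p r L D2 C2 = true) :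
    VS (sgf C.a C.k C.K C.S) (p / L) (r / L) (n / C.K) := by
  refine ⟨(C.wk n).fns, rfl, ?_⟩
  have hF' : okF (C.wk n) = true := hF
  refine ⟨good_of hF', nn_of hF hS, fun X Y s c hs => ?_, fun X q s c hs => ?_⟩
  · refine (v1_of hF h1 X Y s c hs).trans ?_
    have hk : (C.kk : ℝ) / C.K ≤ n / C.K :=
      div_le_div_of_nonneg_right (by exact_mod_cast hn) (by positivity)
    have h3 : (C.kk : ℝ) / C.K * ‖X - 1‖ ^ 2 ≤ n / C.K * ‖X - 1‖ ^ 2 :=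
      mul_le_mul_of_nonneg_right hk (sq_nonneg _)
    have e : (C.wk n).fns.R X Y s c = C.fns.R X Y s c
        - (C.kk : ℝ) / C.K * ‖X - 1‖ ^ 2 + (n : ℝ) / C.K * ‖X - 1‖ ^ 2 := by
      have e1 : C.fns.R X Y s c = (C.kk : ℝ) / C.K * ‖X - 1‖ ^ 2
          + (C.fns.R X Y s c - (C.kk : ℝ) / C.K * ‖X - 1‖ ^ 2) := by ring
      have e2 : (C.wk n).fns.R X Y s c = (n : ℝ) / C.K * ‖X - 1‖ ^ 2
          + (C.fns.R X Y s c - (C.kk : ℝ) / C.K * ‖X - 1‖ ^ 2) := by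
        unfold Fns.R
        show (n : ℝ) / C.K * ‖X - 1‖ ^ 2 + (s ^ 2 * C.fns.L X * ‖Y‖ ^ 2
            - 2 * (c ^ 2 - s ^ 2) * C.fns.U X)
          + (s ^ 2 * (C.fns.Wx X * Y.re + C.fns.Wy X * Y.im)
            + 2 * s * c * (C.fns.Tx X * Y.re + C.fns.Ty X * Y.im))
          + (s ^ 2 * (-C.fns.Vx X * Y.im + C.fns.Vy X * Y.re) + 2 * s * c * C.fns.V X)
          + (2 * s * c * (-C.fns.Zx X * Y.im + C.fns.Zy X * Y.re)
            + 2 * (c ^ 2 - s ^ 2) * C.fns.Z X) = _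
        show _ = (n : ℝ) / C.K * ‖X - 1‖ ^ 2 + ((C.kk : ℝ) / C.K * ‖X - 1‖ ^ 2
          + (s ^ 2 * C.fns.L X * ‖Y‖ ^ 2 - 2 * (c ^ 2 - s ^ 2) * C.fns.U X)
          + (s ^ 2 * (C.fns.Wx X * Y.re + C.fns.Wy X * Y.im)
            + 2 * s * c * (C.fns.Tx X * Y.re + C.fns.Ty X * Y.im))
          + (s ^ 2 * (-C.fns.Vx X * Y.im + C.fns.Vy X * Y.re) + 2 * s * c * C.fns.V X)
          + (2 * s * c * (-C.fns.Zx X * Y.im + C.fns.Zy X * Y.re)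
            + 2 * (c ^ 2 - s ^ 2) * C.fns.Z X) - (C.kk : ℝ) / C.K * ‖X - 1‖ ^ 2)
        ring
      rw [e2]; ring
    linarith
  · exact v2_of hF' hL h2 X q s c hs

end Pool.Agent.Helper71.EKC
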